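import Pool.Agent.helper25.ST.Defs
import Pool.Agent.helper1.KV.Final

set_option autoImplicit false

/-!
# Module FinP: the final configurations from one GIVEN nef class

* `goodP`: `(d + 3; m_i + 1)` nef (`NefP`), `∑ (m i + 1) ^ 2 < (d + 3) ^ 2` and
  `∑ (m i + 2).choose 2 < (d + 5).choose 2` imply that the points `m` impose independent conditions.
* `finR'`: the same with the single hypothesis `cd m + S1 m ≤ C(d+2,2)`, with simple points.
* `finN'`: `(D; m)` nef and `D d < ∑ m i ^ 2` imply that the system of degree `d` is empty.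
-/

namespace Pool.Agent.helper25.ST

open MvPolynomial Pool.Agent.helper5.NBS Pool.Agent.helper89.Segre Pool.Agent.SH9

theorem goodP {d n : ℕ} {m : Fin n → ℕ} (hNef : NefP (d + 3) (fun i => m i + 1))
    (hbig : ∑ l, (m l + 1) ^ 2 < (d + 3) ^ 2)
    (hex : ∑ l, (m l + 2).choose 2 < (d + 5).choose 2) :
    Good ℂ (tri d) (Finset.univ.val.map m) (cd (Finset.univ.val.map m)) := by
  classical
  have s3 : ∑ i, (m i + 1).choose 2 = cd (Finset.univ.val.map m) := by
    rw [cd, Multiset.map_map]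
    rfl
  obtain ⟨S, hSc, hS0, hSq⟩ := hNef
  obtain ⟨x, hx⟩ := Pool.Agent.helper7.SC.exists_avoid S hSc hS0
  let q : Fin n → Fin 2 → ℂ := fun i l => x (i, l)
  have hq : ∀ Q ∈ S, evP q Q ≠ 0 := fun Q hQ => hx Q hQ
  obtain ⟨hinj, hnef⟩ := hSq q hq
  have hfin := Pool.Agent.helper1.KV.kv_finrank hinj hnef hbig hex
  have e2 := two_choose d
  refine good_of_finrank (p := q) (Pool.Agent.helper1.KV.Vt d ⊓
    (Pool.Agent.helper1.KV.Jd q m).restrictScalars ℂ) ?_ ?_
  · intro F
    rw [Submodule.mem_inf, Pool.Agent.helper1.KV.mem_Vt, Submodule.restrictScalars_mem,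
      Pool.Agent.helper1.KV.mem_Jd hinj]
  · rw [card_tri]
    have h1 : ∀ k : ℕ, 2 * (k + 1).choose 2 = k * (k + 1) := by
      intro k
      have h := two_mul_kk k
      rw [kk] at h
      rw [h]
      ring
    have h2 : 2 * ∑ i, (m i + 1).choose 2 = ∑ i, m i * (m i + 1) := by
      rw [Finset.mul_sum]
      exact Finset.sum_congr rfl fun i _ => h1 _
    have h5 : (d + 1) * (d + 2) = (d + 1) * (d + 1 + 1) := rfl
    omega

theorem goodR' {d n : ℕ} {m : Fin n → ℕ} (hNef : NefP (d + 3) (fun i => m i + 1))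
    (hR : cd (Finset.univ.val.map m) + S1 (Finset.univ.val.map m) ≤ (d + 2).choose 2) :
    Good ℂ (tri d) (Finset.univ.val.map m) (cd (Finset.univ.val.map m)) := by
  have s1 : ∑ i, (m i + 1) ^ 2 = S2 (Finset.univ.val.map m) := by
    rw [S2, Multiset.map_map]
    rfl
  have s1' : ∑ i, (m i + 1) = S1 (Finset.univ.val.map m) := by
    rw [S1, Multiset.map_map]
    rfl
  have s2 : 2 * ∑ i, (m i + 2).choose 2 =
      S2 (Finset.univ.val.map m) + S1 (Finset.univ.val.map m) := by
    rw [← s1, ← s1', Finset.mul_sum, ← Finset.sum_add_distrib]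
    apply Finset.sum_congr rfl
    intro i _
    rw [two_choose (m i)]
    ring
  have e1 := two_cd (Finset.univ.val.map m)
  have e2 := two_choose d
  have e3 := two_choose (d + 3)
  have hlt : (d + 1) * (d + 2) < (d + 3) ^ 2 := by nlinarith
  have hlt' : (d + 1) * (d + 2) < (d + 3 + 1) * (d + 3 + 2) := by nlinarith
  refine goodP hNef (by omega) ?_
  have h5 : (d + 5).choose 2 = (d + 3 + 2).choose 2 := rfl
  rw [h5]
  omega

theorem finR' {d n s : ℕ} {m : Fin n → ℕ} (hNef : NefP (d + 3) (fun i => m i + 1))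
    (hR : cd (Finset.univ.val.map m) + S1 (Finset.univ.val.map m) ≤ (d + 2).choose 2)
    (ht : (d + 2).choose 2 ≤ cd (Finset.univ.val.map m) + s) :
    E d (Finset.univ.val.map m + Multiset.replicate s 1) := by
  refine E_ones_of_good (goodR' hNef hR) ?_
  rw [card_tri]
  exact ht

theorem finN' {d D n : ℕ} {m : Fin n → ℕ} (hNef : NefP D m) (hD : D * d < ∑ i, m i ^ 2) :
    E d (Finset.univ.val.map m) := by
  classical
  obtain ⟨S, hSc, hS0, hSq⟩ := hNef
  obtain ⟨x, hx⟩ := Pool.Agent.helper7.SC.exists_avoid S hSc hS0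
  let q : Fin n → Fin 2 → ℂ := fun i l => x (i, l)
  have hq : ∀ Q ∈ S, evP q Q ≠ 0 := fun Q hQ => hx Q hQ
  obtain ⟨_, hnef⟩ := hSq q hq
  refine E_of_emp (p := q) ?_
  intro F hF hmem
  by_contra hF0
  have h1 := hnef F hF0
  have h2 : ∑ i, m i ^ 2 ≤ ∑ i, m i * mult (q i) F := by
    apply Finset.sum_le_sum
    intro i _
    rw [pow_two]
    exact Nat.mul_le_mul le_rfl ((mem_pow_iff_le_mult hF0).mp (hmem i))
  have h3 := Nat.mul_le_mul (le_refl D) hF
  omega

end Pool.Agent.helper25.ST
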