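import Pool.Agent.SH9.Conv
import Pool.Agent.helper7.SC.Final
import Pool.Agent.helper7.KV.Coord

set_option autoImplicit false

/-!
# Project ST (MP_cfebfb_ag, all systems outside a thin strip): definitions

`E d ms` (from SH9): the linear system of degree `d` with multiplicities `ms` at general points is
empty.
-/

namespace Pool.Agent.helper25.ST

open MvPolynomial Pool.Agent.helper5.NBS Pool.Agent.helper89.Segre Pool.Agent.SH9

/-- at very general points `∑ w i mult_i F ≤ D deg F` for all plane curves `F` -/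
def NefP (D : ℕ) {n : ℕ} (w : Fin n → ℕ) : Prop :=
  ∃ T : Set (PtRing n), T.Countable ∧ (∀ Q ∈ T, Q ≠ 0) ∧ ∀ q : Fin n → Fin 2 → ℂ,
    (∀ Q ∈ T, evP q Q ≠ 0) → Function.Injective q ∧
      ∀ F : R2, F ≠ 0 → ∑ i, w i * mult (q i) F ≤ D * wdeg 1 F

/-- nefness of all classes `(D; w)` with weights at most `W`, `D ≥ d` and self-intersection at
least `Δ` -/
def NefT (d W Δ : ℕ) : Prop :=
  ∀ (n : ℕ) (w : Fin n → ℕ), (∀ i, w i ≤ W) → ∀ D : ℕ, d ≤ D →
    ∑ i, w i ^ 2 + Δ ≤ D ^ 2 → NefP D w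

/-- sum of `μ + 1` -/
def S1 (ms : Multiset ℕ) : ℕ := (ms.map fun μ => μ + 1).sum

/-- sum of `(μ + 1) ^ 2` -/
def S2 (ms : Multiset ℕ) : ℕ := (ms.map fun μ => (μ + 1) ^ 2).sum

/-- the number of conditions -/
def cd (ms : Multiset ℕ) : ℕ := (ms.map kk).sum

lemma S1_add (a b : Multiset ℕ) : S1 (a + b) = S1 a + S1 b := by simp [S1]
lemma S2_add (a b : Multiset ℕ) : S2 (a + b) = S2 a + S2 b := by simp [S2]
lemma cd_add (a b : Multiset ℕ) : cd (a + b) = cd a + cd b := by simp [cd]
lemma S1_cons (m : ℕ) (a : Multiset ℕ) : S1 (m ::ₘ a) = (m + 1) + S1 a := by simp [S1]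
lemma S2_cons (m : ℕ) (a : Multiset ℕ) : S2 (m ::ₘ a) = (m + 1) ^ 2 + S2 a := by simp [S2]
lemma cd_cons (m : ℕ) (a : Multiset ℕ) : cd (m ::ₘ a) = kk m + cd a := by simp [cd]
lemma S1_zero : S1 0 = 0 := by simp [S1]
lemma S2_zero : S2 0 = 0 := by simp [S2]
lemma cd_zero : cd 0 = 0 := by simp [cd]

lemma kk_one : kk 1 = 1 := by decide

lemma cd_ones (s : ℕ) : cd (Multiset.replicate s 1) = s := by
  simp [cd, kk_one]

/-- `2 C(μ+1,2) = (μ+1)^2 - (μ+1)` -/
lemma two_cd (ms : Multiset ℕ) : 2 * cd ms + S1 ms = S2 ms := by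
  induction ms using Multiset.induction_on with
  | empty => simp [cd, S1, S2]
  | cons m ms ih =>
    rw [cd_cons, S1_cons, S2_cons, ← ih]
    have := two_mul_kk m
    nlinarith

lemma S1_le_S2 (ms : Multiset ℕ) : S1 ms ≤ S2 ms := by
  have := two_cd ms
  omega

/-- `2 C(d+2,2) = (d+1)(d+2)` -/
lemma two_choose (d : ℕ) : 2 * (d + 2).choose 2 = (d + 1) * (d + 2) := by
  have h := two_mul_kk (d + 1)
  rw [kk] at h
  rw [h]
  ring

/-- every multiset is the family of the values of a function on `Fin n` -/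
lemma exists_fin (ms : Multiset ℕ) : ∃ m : Fin (Multiset.card ms) → ℕ,
    Finset.univ.val.map m = ms := by
  induction ms using Quot.inductionOn with
  | h l =>
    refine ⟨fun i => l.get i, ?_⟩
    change Multiset.map (fun i => l.get i) (Finset.univ : Finset (Fin l.length)).val = (l : Multiset ℕ)
    rw [Fin.univ_val_map, List.ofFn_get]

/-- linear inequalities follow from the irreducible curves -/
lemma nef_of_irred {n : ℕ} {q : Fin n → Fin 2 → ℂ} {w : Fin n → ℕ} {D : ℕ}
    (H : ∀ F : R2, Irreducible F → ∑ i, w i * mult (q i) F ≤ D * wdeg 1 F) (F : R2) :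
    F ≠ 0 → ∑ i, w i * mult (q i) F ≤ D * wdeg 1 F := by
  induction F using WfDvdMonoid.induction_on_irreducible with
  | zero => intro h0; exact absurd rfl h0
  | unit u hu =>
    intro _
    have h0 : ∑ i, w i * mult (q i) u = 0 :=
      Finset.sum_eq_zero (fun i _ => by rw [mult_unit (q i) hu, mul_zero])
    rw [h0]
    exact Nat.zero_le _
  | mul a i ha hi ih =>
    intro _
    have h3 : ∑ k, w k * mult (q k) (i * a) = ∑ k, w k * mult (q k) i + ∑ k, w k * mult (q k) a := by
      rw [← Finset.sum_add_distrib]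
      apply Finset.sum_congr rfl
      intro k _
      rw [mult_mul hi.ne_zero ha]
      ring
    rw [h3, wdeg_mul 1 hi.ne_zero ha, mul_add]
    exact Nat.add_le_add (H i hi) (ih ha)

end Pool.Agent.helper25.ST
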