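import Mathlib

set_option autoImplicit false

/-!
# Module NumV: the numerical part of nefness (pure inequalities)

Setting: `n i ≤ M` the weights, `D` the degree of the class, `(e; μ)` degree and multiplicities of an
irreducible curve, `xu` Xu's inequality `∑ μ i ^ 2 ≤ e ^ 2 + μ j` for every `j` with `μ j > 0`.
Suppose the curve violates nefness: `D e < ∑ n i μ i`. Let `m ≥ 1` be the smallest positive `μ j`
(there is one), `S` the number of `i` with `μ i > 0`, `s = e / D`, `y = s M`.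

(1) `S ≥ 2`: otherwise `∑ n μ ≤ M μ i ≤ M e ≤ D e`. `∑ μ ^ 2 ≤ e ^ 2 + m`, `∑ μ ^ 2 ≥ S m ^ 2`, so
`e ^ 2 ≥ (S - 1) m ^ 2 ≥ m` and `∑ μ ^ 2 ≤ 2 e ^ 2`. Cauchy-Schwarz on the support:
`(D e) ^ 2 < M ^ 2 S ∑ μ ^ 2 ≤ 2 M ^ 2 S e ^ 2`, so `D ^ 2 < 2 M ^ 2 S`, `S > 50`, `S ≥ 51`.
(2) `V = ∑ (μ i - s n i) ^ 2 = ∑ μ ^ 2 - 2 s ∑ n μ + s ^ 2 ∑ n ^ 2 < (e ^ 2 + m) - 2 e ^ 2 + (e ^ 2 - s ^ 2 Δ)`,
so `V + s ^ 2 Δ < m`.
(3) on the support `μ i - s n i ≥ m - y`, so if `m ≥ y` then `S (m - y) ^ 2 ≤ V`.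
`num0` (`Δ = 2 M ^ 2`): `s ^ 2 Δ = 2 y ^ 2`. If `m ≥ y`: `51 (m - y) ^ 2 + 2 y ^ 2 < m`, but the left side is
`≥ (102 / 53) m ^ 2 ≥ m`. If `m < y`: `2 y ^ 2 > 2 m ^ 2 ≥ m`. Contradiction.
`numV`: if `m ≥ y`: `51 (m - y) ^ 2 < m ≤ m ^ 2`, so `m - y < m / 7`, `y > 6 m / 7 ≥ 6 / 7`; this is the
fourth conclusion, and it holds also if `m < y`. So `m < 7 y / 6`; `s ^ 2 Δ < m < 7 y / 6` is
`6 e Δ < 7 M D` (second conclusion). `(μ i - s n i) ^ 2 ≤ V < m`, so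
`μ i < y + √m ≤ y + √(7 y / 6) ≤ y + 7 y / 6` (as `7 y / 6 ≥ 1`), first conclusion. Third: if
`∑ μ ^ 2 ≤ e ^ 2` then `(∑ n μ) ^ 2 ≤ ∑ n ^ 2 ∑ μ ^ 2 ≤ D ^ 2 e ^ 2`.
-/

namespace Pool.Agent.helper25.ST

private theorem core {r : ℕ} (n μ : Fin r → ℕ) (M D Δ e : ℕ) (hM : ∀ i, n i ≤ M) (h1 : 1 ≤ M)
    (hD : 10 * M ≤ D) (hsq : ∑ i, n i ^ 2 + Δ ≤ D ^ 2)
    (xu : ∀ j, 0 < μ j → ∑ i, μ i ^ 2 ≤ e ^ 2 + μ j) (hme : ∀ i, μ i ≤ e)
    (viol : D * e < ∑ i, n i * μ i) :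
    1 ≤ e ∧ ∑ i, μ i ^ 2 ≤ 2 * e ^ 2 ∧ ∃ m : ℝ, 1 ≤ m ∧
      (∀ i, ((μ i : ℝ) - e / D * n i) ^ 2 + (e / D : ℝ) ^ 2 * Δ < m) ∧
      ((e / D : ℝ) * M ≤ m → 51 * (m - e / D * M) ^ 2 + (e / D : ℝ) ^ 2 * Δ < m) := by
  classical
  obtain ⟨T, hT⟩ : ∃ T : Finset (Fin r), T = Finset.univ.filter (fun i => 0 < μ i) := ⟨_, rfl⟩
  have hTm : ∀ i, i ∈ T ↔ 0 < μ i := fun i => by rw [hT]; simp
  have hT0 : ∀ i, i ∉ T → μ i = 0 := fun i hi => by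
    have := (hTm i).not.1 hi
    omega
  have s1 : ∑ i, n i * μ i = ∑ i ∈ T, n i * μ i := by
    symm
    apply Finset.sum_subset (Finset.subset_univ T)
    intro i _ hi
    rw [hT0 i hi, mul_zero]
  have s2 : ∑ i, μ i ^ 2 = ∑ i ∈ T, μ i ^ 2 := by
    symm
    apply Finset.sum_subset (Finset.subset_univ T)
    intro i _ hi
    rw [hT0 i hi]; rfl
  have hTne : T.Nonempty := by
    by_contra hh
    rw [Finset.not_nonempty_iff_eq_empty] at hh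
    rw [s1, hh, Finset.sum_empty] at viol
    omega
  obtain ⟨j, hj, hmin⟩ := Finset.exists_min_image T μ hTne
  obtain ⟨m, hm⟩ : ∃ m, m = μ j := ⟨_, rfl⟩
  have hm1 : 1 ≤ m := by
    have := (hTm j).1 hj
    omega
  have he1 : 1 ≤ e := by
    have := hme j
    omega
  have hxu : ∑ i, μ i ^ 2 ≤ e ^ 2 + m := by
    rw [hm]; exact xu j ((hTm j).1 hj)
  have hlow : T.card * m ^ 2 ≤ ∑ i, μ i ^ 2 := by
    rw [s2, ← smul_eq_mul]
    apply Finset.card_nsmul_le_sum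
    intro i hi
    rw [hm]
    exact Nat.pow_le_pow_left (hmin i hi) 2
  have hM0 : 0 < M := h1
  have hD0 : 0 < D := by omega
  -- at least two points
  have hS2 : 2 ≤ T.card := by
    by_contra hh
    have hc : T.card = 1 := by
      have := Finset.card_pos.2 hTne
      omega
    obtain ⟨i0, hi0⟩ := Finset.card_eq_one.1 hc
    rw [s1, hi0, Finset.sum_singleton] at viol
    have g1 : n i0 * μ i0 ≤ M * e := Nat.mul_le_mul (hM i0) (hme i0)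
    have g2 : M * e ≤ D * e := Nat.mul_le_mul_right e (by omega)
    omega
  have hme2 : m ≤ e ^ 2 := by
    have g1 : 2 * m ^ 2 ≤ e ^ 2 + m := by
      calc 2 * m ^ 2 ≤ T.card * m ^ 2 := Nat.mul_le_mul_right _ hS2
        _ ≤ _ := hlow.trans hxu
    have g2 : m ≤ m ^ 2 := by nlinarith
    omega
  have h2e : ∑ i, μ i ^ 2 ≤ 2 * e ^ 2 := by omega
  -- Cauchy-Schwarz on the support
  have hS51 : 51 ≤ T.card := by
    have cs : (∑ i ∈ T, n i * μ i) ^ 2 ≤ (∑ i ∈ T, n i ^ 2) * (∑ i ∈ T, μ i ^ 2) :=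
      Finset.sum_mul_sq_le_sq_mul_sq T n μ
    have g1 : ∑ i ∈ T, n i ^ 2 ≤ T.card * M ^ 2 := by
      rw [← smul_eq_mul]
      apply Finset.sum_le_card_nsmul
      intro i _
      exact Nat.pow_le_pow_left (hM i) 2
    rw [← s1, ← s2] at cs
    have g2 : (D * e) ^ 2 < (∑ i, n i * μ i) ^ 2 := Nat.pow_lt_pow_left viol (by norm_num)
    have g3 : (∑ i ∈ T, n i ^ 2) * (∑ i, μ i ^ 2) ≤ (T.card * M ^ 2) * (2 * e ^ 2) :=
      Nat.mul_le_mul g1 h2e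
    have g4 : (D * e) ^ 2 < (T.card * M ^ 2) * (2 * e ^ 2) := by omega
    have g5 : D ^ 2 < 2 * T.card * M ^ 2 := by
      have : D ^ 2 * e ^ 2 < (2 * T.card * M ^ 2) * e ^ 2 := by
        calc D ^ 2 * e ^ 2 = (D * e) ^ 2 := by ring
          _ < _ := g4
          _ = _ := by ring
      exact lt_of_mul_lt_mul_right this (Nat.zero_le _)
    have g6 : (10 * M) ^ 2 ≤ D ^ 2 := Nat.pow_le_pow_left hD 2
    have g7 : 100 * M ^ 2 < 2 * T.card * M ^ 2 := by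
      calc 100 * M ^ 2 = (10 * M) ^ 2 := by ring
        _ < _ := lt_of_le_of_lt g6 g5
    have g8 : 100 < 2 * T.card := lt_of_mul_lt_mul_right g7 (Nat.zero_le _)
    omega
  -- real numbers
  have hDr : (0:ℝ) < D := by exact_mod_cast hD0
  have her : (1:ℝ) ≤ e := by exact_mod_cast he1
  have hmr : (1:ℝ) ≤ m := by exact_mod_cast hm1
  obtain ⟨s, hs⟩ : ∃ s : ℝ, s = (e : ℝ) / D := ⟨_, rfl⟩
  have hs0 : 0 < s := by rw [hs]; positivity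
  have hsD : s * D = e := by rw [hs, div_mul_cancel₀ _ hDr.ne']
  rw [← hs]
  have r1 : (∑ i, (μ i : ℝ) ^ 2) ≤ (e:ℝ) ^ 2 + m := by exact_mod_cast hxu
  have r2 : (D:ℝ) * e < ∑ i, (n i : ℝ) * μ i := by exact_mod_cast viol
  have r3 : (∑ i, (n i : ℝ) ^ 2) + Δ ≤ (D:ℝ) ^ 2 := by exact_mod_cast hsq
  have hV : ∑ i, ((μ i : ℝ) - s * n i) ^ 2 =
      (∑ i, (μ i : ℝ) ^ 2) - 2 * s * (∑ i, (n i : ℝ) * μ i) + s ^ 2 * (∑ i, (n i : ℝ) ^ 2) := by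
    rw [Finset.mul_sum, Finset.mul_sum, ← Finset.sum_sub_distrib, ← Finset.sum_add_distrib]
    apply Finset.sum_congr rfl
    intro i _
    ring
  have hVl : ∑ i, ((μ i : ℝ) - s * n i) ^ 2 + s ^ 2 * Δ < m := by
    have g1 : 2 * s * ((D:ℝ) * e) < 2 * s * (∑ i, (n i : ℝ) * μ i) :=
      mul_lt_mul_of_pos_left r2 (by positivity)
    have g2 : s ^ 2 * ((∑ i, (n i : ℝ) ^ 2) + Δ) ≤ s ^ 2 * (D:ℝ) ^ 2 :=
      mul_le_mul_of_nonneg_left r3 (by positivity)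
    have g3 : s ^ 2 * (D:ℝ) ^ 2 = (e:ℝ) ^ 2 := by rw [← hsD]; ring
    have g4 : 2 * s * ((D:ℝ) * e) = 2 * (e:ℝ) ^ 2 := by
      calc 2 * s * ((D:ℝ) * e) = 2 * (s * D) * e := by ring
        _ = _ := by rw [hsD]; ring
    rw [hV]
    linarith
  refine ⟨he1, h2e, m, hmr, ?_, ?_⟩
  · intro i
    have g1 : ((μ i : ℝ) - s * n i) ^ 2 ≤ ∑ i, ((μ i : ℝ) - s * n i) ^ 2 :=
      Finset.single_le_sum (f := fun i => ((μ i : ℝ) - s * n i) ^ 2)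
        (fun i _ => sq_nonneg _) (Finset.mem_univ i)
    linarith
  · intro hy
    have g1 : (T.card : ℝ) * (m - s * M) ^ 2 ≤ ∑ i ∈ T, ((μ i : ℝ) - s * n i) ^ 2 := by
      rw [← nsmul_eq_mul]
      apply Finset.card_nsmul_le_sum
      intro i hi
      have k1 : (m : ℝ) ≤ μ i := by rw [hm]; exact_mod_cast hmin i hi
      have k2 : s * (n i : ℝ) ≤ s * M :=
        mul_le_mul_of_nonneg_left (by exact_mod_cast hM i) hs0.le
      exact pow_le_pow_left₀ (by linarith) (by linarith) 2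
    have g2 : ∑ i ∈ T, ((μ i : ℝ) - s * n i) ^ 2 ≤ ∑ i, ((μ i : ℝ) - s * n i) ^ 2 :=
      Finset.sum_le_sum_of_subset_of_nonneg (Finset.subset_univ T) (fun i _ _ => sq_nonneg _)
    have g3 : (51:ℝ) * (m - s * M) ^ 2 ≤ (T.card : ℝ) * (m - s * M) ^ 2 :=
      mul_le_mul_of_nonneg_right (by exact_mod_cast hS51) (sq_nonneg _)
    linarith

theorem num0 {r : ℕ} (n μ : Fin r → ℕ) (M D e : ℕ) (hM : ∀ i, n i ≤ M) (h1 : 1 ≤ M)
    (hD : 10 * M ≤ D) (hsq : ∑ i, n i ^ 2 + 2 * M ^ 2 ≤ D ^ 2)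
    (xu : ∀ j, 0 < μ j → ∑ i, μ i ^ 2 ≤ e ^ 2 + μ j) (hme : ∀ i, μ i ≤ e) :
    ∑ i, n i * μ i ≤ D * e := by
  by_contra hh
  push Not at hh
  obtain ⟨he1, h2e, m, hm, hA, hB⟩ := core n μ M D (2 * M ^ 2) e hM h1 hD hsq xu hme hh
  obtain ⟨y, hy⟩ : ∃ y : ℝ, y = (e / D : ℝ) * M := ⟨_, rfl⟩
  have hy0 : 0 ≤ y := by rw [hy]; positivity
  have hyy : (e / D : ℝ) ^ 2 * ((2 * M ^ 2 : ℕ) : ℝ) = 2 * y ^ 2 := by
    rw [hy]; push_cast; ring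
  rw [hyy, ← hy] at hB
  rcases le_or_gt y m with h | h
  · have := hB h
    nlinarith [sq_nonneg (53 * y - 51 * m)]
  · have hr : ∃ i : Fin r, True := by
      by_contra hne
      push Not at hne
      have : ∑ i, n i * μ i = 0 := Finset.sum_eq_zero (fun i _ => (hne i).elim)
      omega
    obtain ⟨i, -⟩ := hr
    have h3 := hA i
    rw [hyy] at h3
    nlinarith [sq_nonneg ((μ i : ℝ) - e / D * n i)]

theorem numV {r : ℕ} (n μ : Fin r → ℕ) (M D Δ e : ℕ) (hM : ∀ i, n i ≤ M) (h1 : 1 ≤ M)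
    (hD : 10 * M ≤ D) (hsq : ∑ i, n i ^ 2 + Δ ≤ D ^ 2)
    (xu : ∀ j, 0 < μ j → ∑ i, μ i ^ 2 ≤ e ^ 2 + μ j) (hme : ∀ i, μ i ≤ e)
    (viol : D * e < ∑ i, n i * μ i) :
    (∀ i, 6 * (μ i * D) ≤ 13 * (e * M)) ∧ 6 * (e * Δ) < 7 * (M * D) ∧ e ^ 2 < ∑ i, μ i ^ 2 ∧
      6 * D ≤ 7 * (e * M) ∧ ∑ i, μ i ^ 2 ≤ 2 * e ^ 2 := by
  obtain ⟨he1, h2e, m, hm, hA, hB⟩ := core n μ M D Δ e hM h1 hD hsq xu hme viol
  have hDr : (0:ℝ) < D := by
    have : 0 < D := by omega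
    exact_mod_cast this
  have her : (1:ℝ) ≤ e := by exact_mod_cast he1
  obtain ⟨s, hs⟩ : ∃ s : ℝ, s = (e : ℝ) / D := ⟨_, rfl⟩
  have hs0 : 0 < s := by rw [hs]; positivity
  have hsD : s * D = e := by rw [hs, div_mul_cancel₀ _ hDr.ne']
  rw [← hs] at hA hB
  obtain ⟨y, hy⟩ : ∃ y : ℝ, y = s * M := ⟨_, rfl⟩
  have hyD : y * D = e * M := by rw [hy, ← hsD]; ring
  rw [← hy] at hB
  have hy0 : 0 ≤ y := by rw [hy]; positivity
  have hΔ0 : (0:ℝ) ≤ s ^ 2 * Δ := by positivity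
  have hym : 6 * m < 7 * y := by
    rcases le_or_gt y m with h | h
    · have h3 := hB h
      have h4 : (7 * (m - y)) ^ 2 < m ^ 2 := by nlinarith [sq_nonneg (m - y)]
      have h5 := abs_lt_of_sq_lt_sq h4 (by linarith)
      have h6 := (abs_lt.1 h5).2
      linarith
    · linarith
  have hr : ∃ i : Fin r, True := by
    by_contra hne
    push Not at hne
    have : ∑ i, n i * μ i = 0 := Finset.sum_eq_zero (fun i _ => (hne i).elim)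
    omega
  refine ⟨fun i => ?_, ?_, ?_, ?_, h2e⟩
  · have h3 := hA i
    have h4 : ((μ i : ℝ) - s * n i) ^ 2 < (7 / 6 * y) ^ 2 := by nlinarith
    have h5 := abs_lt_of_sq_lt_sq h4 (by positivity)
    have h6 := (abs_lt.1 h5).2
    have h7 : s * (n i : ℝ) ≤ y := by
      rw [hy]
      exact mul_le_mul_of_nonneg_left (by exact_mod_cast hM i) hs0.le
    have h8 : 6 * (μ i : ℝ) ≤ 13 * y := by linarith
    have h9 : 6 * ((μ i : ℝ) * D) ≤ 13 * (e * M) := by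
      rw [← hyD]
      nlinarith
    exact_mod_cast h9
  · obtain ⟨i, -⟩ := hr
    have h3 := hA i
    have h4 : 6 * (s ^ 2 * Δ) < 7 * y := by nlinarith [sq_nonneg ((μ i : ℝ) - s * n i)]
    have h5 : 6 * ((e:ℝ) * Δ) * e < 7 * (M * D) * e := by
      have g1 : 6 * ((e:ℝ) * Δ) * e = 6 * (s ^ 2 * Δ) * D ^ 2 := by rw [← hsD]; ring
      have g2 : 7 * ((M:ℝ) * D) * e = 7 * y * D ^ 2 := by
        calc 7 * ((M:ℝ) * D) * e = 7 * (e * M) * D := by ring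
          _ = 7 * (y * D) * D := by rw [hyD]
          _ = _ := by ring
      rw [g1, g2]
      exact mul_lt_mul_of_pos_right h4 (by positivity)
    have h6 : 6 * ((e:ℝ) * Δ) < 7 * (M * D) := lt_of_mul_lt_mul_right h5 (by linarith)
    exact_mod_cast h6
  · by_contra hh
    push Not at hh
    have cs : (∑ i, n i * μ i) ^ 2 ≤ (∑ i, n i ^ 2) * (∑ i, μ i ^ 2) :=
      Finset.sum_mul_sq_le_sq_mul_sq Finset.univ n μ
    have g2 : (D * e) ^ 2 < (∑ i, n i * μ i) ^ 2 := Nat.pow_lt_pow_left viol (by norm_num)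
    have g3 : (∑ i, n i ^ 2) * (∑ i, μ i ^ 2) ≤ D ^ 2 * e ^ 2 :=
      Nat.mul_le_mul (by omega) hh
    have g4 : (D * e) ^ 2 = D ^ 2 * e ^ 2 := by ring
    omega
  · have h3 : 6 * (D:ℝ) ≤ 7 * (e * M) := by
      rw [← hyD]
      nlinarith
    exact_mod_cast h3

end Pool.Agent.helper25.ST
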