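import Pool.Agent.helper25.ST.Defs
import Pool.Agent.helper25.ST.NumV

set_option autoImplicit false

/-!
# Module Nef0: nefness, level 0, and the general criterion

`xu_all`: at very general points (`VGN one_pos q`, see `TN`, `TN_countable`, `TN_ne`, `VGN_of`,
`bez`, `xuN` as used in helper89/Exp/Step.lean) Xu's inequality for irreducible curves, and
`mult ≤ wdeg 1` (`mult_le_totalDegree` in helper89.Exp.Collide16, `wdeg_eq` in helper7.KV.Coord).
`nefP_of`: to prove `NefP D w` it suffices: for every irreducible curve `F` at very general points which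
satisfies Xu's inequality and violates nefness, the system `E (wdeg 1 F) (multiplicities of F)` is
empty. Take `T = TN ∪ {Q_(e,μ)}` where `Q_(e,μ)` is the polynomial of `E.generic` if
`E e (univ.val.map μ)` holds and `1` otherwise (countably many pairs `(e, μ)`);
`nef_of_irred`.
`nef0`: `num0`.
-/

namespace Pool.Agent.helper25.ST

open MvPolynomial Pool.Agent.helper5.NBS Pool.Agent.helper89.Segre Pool.Agent.SH9

namespace Nef0aux

lemma totalDegree_trans_le (p : Fin 2 → ℂ) (F : R2) : (trans p F).totalDegree ≤ F.totalDegree := by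
  have h1 : trans p F = aeval (fun j : Fin 2 => (X j + C (p j) : R2)) F := rfl
  rw [h1, aeval_def, eval₂_eq]
  apply totalDegree_finsetSum_le
  intro n hn
  refine (totalDegree_mul _ _).trans ?_
  rw [algebraMap_eq, totalDegree_C, zero_add]
  refine (totalDegree_finsetProd _ _).trans ?_
  have h2 : ∀ i ∈ n.support, ((X i + C (p i) : R2) ^ n i).totalDegree ≤ n i := by
    intro i _
    refine (totalDegree_pow _ _).trans ?_
    have h3 : (X i + C (p i) : R2).totalDegree ≤ 1 := by
      refine (totalDegree_add _ _).trans ?_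
      rw [totalDegree_X, totalDegree_C]
      simp
    calc n i * _ ≤ n i * 1 := Nat.mul_le_mul_left _ h3
      _ = n i := mul_one _
  exact (Finset.sum_le_sum h2).trans (le_totalDegree hn)

lemma td_le (F : R2) : F.totalDegree ≤ wdeg 1 F := by
  apply Finset.sup_le
  intro n hn
  have h1 : n 0 + 1 * n 1 ≤ wdeg 1 F :=
    Finset.le_sup (f := fun n : Fin 2 →₀ ℕ => n 0 + 1 * n 1) hn
  have h2 : (n.sum fun _ e => e) = n 0 + n 1 := by
    rw [Finsupp.sum_fintype _ _ (fun _ => rfl), Fin.sum_univ_two]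
  omega

lemma mult_le_deg (p : Fin 2 → ℂ) {F : R2} (hF : F ≠ 0) : mult p F ≤ wdeg 1 F := by
  have h1 := mem_ptIdeal_pow.mp ((mem_pow_iff_le_mult (p := p) hF).mpr le_rfl)
  have h2 : trans p F ≠ 0 := fun h => hF ((trans p).map_eq_zero_iff.mp h)
  obtain ⟨n, hn⟩ := support_nonempty.mpr h2
  by_contra hcon
  push Not at hcon
  have h3 := le_totalDegree hn
  have h4 := totalDegree_trans_le p F
  have h5 : (n.sum fun _ e => e) = n.degree := by
    rw [Finsupp.degree_eq_sum, Finsupp.sum_fintype _ _ (fun _ => rfl)]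
  have h6 := td_le F
  rw [mem_support_iff] at hn
  exact hn (h1 n (by omega))

/-- the polynomial of `E.generic` -/
noncomputable def Qf {n : ℕ} (e : ℕ) (μ : Fin n → ℕ) : PtRing n := by
  classical
  exact if h : E e (Finset.univ.val.map μ) then Classical.choose h.generic else 1

lemma Qf_ne {n : ℕ} (e : ℕ) (μ : Fin n → ℕ) : Qf e μ ≠ 0 := by
  classical
  unfold Qf
  split_ifs with h
  · exact (Classical.choose_spec h.generic).1
  · exact one_ne_zero

lemma Qf_emp {n : ℕ} {e : ℕ} {μ : Fin n → ℕ} (h : E e (Finset.univ.val.map μ))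
    {q : Fin n → Fin 2 → ℂ} (hq : evP q (Qf e μ) ≠ 0) : Emp e μ q := by
  classical
  unfold Qf at hq
  rw [dif_pos h] at hq
  exact (Classical.choose_spec h.generic).2 q hq

end Nef0aux

open Nef0aux in
theorem nefP_of {D n : ℕ} (w : Fin n → ℕ)
    (H : ∀ (e : ℕ) (μ : Fin n → ℕ), 0 < e → (∀ j, 0 < μ j → ∑ i, μ i ^ 2 ≤ e ^ 2 + μ j) →
      (∀ i, μ i ≤ e) → D * e < ∑ i, w i * μ i → E e (Finset.univ.val.map μ)) :
    NefP D w := by
  obtain ⟨T, hT, hT0, hTp⟩ := Pool.Agent.helper7.SC.wxu 1 n one_pos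
  refine ⟨T ∪ Set.range (fun x : ℕ × (Fin n → ℕ) => Qf x.1 x.2),
    hT.union (Set.countable_range _), ?_, ?_⟩
  · rintro Q (hQ | ⟨x, rfl⟩)
    · exact hT0 Q hQ
    · exact Qf_ne _ _
  · intro q hq
    obtain ⟨hinj, hirr⟩ := hTp q (fun Q hQ => hq Q (Or.inl hQ))
    refine ⟨hinj, nef_of_irred ?_⟩
    intro F hF
    by_contra hcon
    push Not at hcon
    have hF0 := hF.ne_zero
    have h1 := H (wdeg 1 F) (fun i => mult (q i) F) (Pool.Agent.helper7.SC.wdeg_pos one_pos hF)
      (fun j hj => by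
        have := (hirr F hF).1 j hj
        simpa using this) (fun i => mult_le_deg _ hF0) hcon
    have h2 := Qf_emp h1 (hq _ (Or.inr ⟨(wdeg 1 F, fun i => mult (q i) F), rfl⟩))
    exact hF0 (h2 F le_rfl (fun i => (mem_pow_iff_le_mult hF0).mpr le_rfl))

theorem nef0 {d W : ℕ} (hW : 1 ≤ W) (hd : 10 * W ≤ d) : NefT d W (2 * W ^ 2) := by
  intro n w hw D hD hsq
  apply nefP_of
  intro e μ _ hxu hme viol
  have := num0 w μ W D e hw hW (by omega) hsq hxu hme
  omega

end Pool.Agent.helper25.ST
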