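import Pool.Agent.helper25.ST.Defs

set_option autoImplicit false

/-!
# Module NumMain: the numbers for the main theorem, and a sub-multiset

`numMain`: `Φ = 5 d ^ 2`, `A = (3 Φ + 3 (√(9 U) + 1) U ^ 2) / U + 1`,
`Δ = 10 ^ 23 W ^ 6 / d ^ 4 + 1`, `w = 3 A + 3 Δ + 2 d + 1`. `A ≤ 15 d ^ 2 / U + 12 U ^ (3/2) + 1`;
`45 d ^ 2 / U ≤ .45 v`, `36 U ^ (3/2) ≤ .036 v`, `3 * 10 ^ 23 W ^ 6 / d ^ 4 ≤ .03 v`, `v U ≥ 100 d ^ 2` and
`d ≥ 10 ^ 7 W` give `v ≥ 10 ^ 9 d`. For `4 w ≤ d ^ 2`: `45 d ^ 2 / U`: here `U ≥ 10 ^ 3` is used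
(`hU`), the other terms are small since `d ≥ 10 ^ 7 W`.
`exists_sub`: remove elements one by one.
-/

namespace Pool.Agent.helper25.ST

open Pool.Agent.helper89.Segre

theorem numMain {d U W v : ℕ} (hU : 10 ^ 3 ≤ U) (hUW : U ≤ W) (hd : 10 ^ 7 * W ≤ d)
    (h1 : 100 * d ^ 2 ≤ v * U) (h2 : 10 ^ 6 * U ^ 3 ≤ v ^ 2) (h3 : 10 ^ 25 * W ^ 6 ≤ v * d ^ 4) :
    ∃ A Δ w : ℕ, 10 ^ 23 * W ^ 6 ≤ Δ * d ^ 4 ∧
      3 * (5 * d ^ 2) + 3 * (Nat.sqrt (9 * U) + 1) * U ^ 2 ≤ U * A ∧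
      3 * A + 3 * Δ + 2 * d + 1 ≤ w ∧ w ≤ v ∧ 4 * w ≤ d ^ 2 := by
  have hU0 : 0 < U := by omega
  have hd0 : 0 < d := by omega
  have hd4 : 0 < d ^ 4 := by positivity
  obtain ⟨s, hs⟩ : ∃ s, s = Nat.sqrt (9 * U) := ⟨_, rfl⟩
  have hs2 : s * s ≤ 9 * U := by rw [hs]; exact Nat.sqrt_le (9 * U)
  rw [← hs]
  -- bounds for s
  have hsU : s + 1 ≤ U := by
    by_contra hc
    have h4 : U ≤ s := by omega
    have h5 : U * U ≤ s * s := Nat.mul_le_mul h4 h4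
    nlinarith
  have hsv : 200 * ((s + 1) * U) ≤ v := by
    by_contra hc
    have h4 : v + 1 ≤ 200 * ((s + 1) * U) := by omega
    have h5 : (s + 1) * (s + 1) ≤ 20 * U := by nlinarith
    have h6 : v ^ 2 < (200 * ((s + 1) * U)) ^ 2 := Nat.pow_lt_pow_left (by omega) (by norm_num)
    have h7 : (200 * ((s + 1) * U)) ^ 2 = 40000 * U ^ 2 * ((s + 1) * (s + 1)) := by ring
    have h8 : 40000 * U ^ 2 * ((s + 1) * (s + 1)) ≤ 40000 * U ^ 2 * (20 * U) :=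
      Nat.mul_le_mul_left _ h5
    have h9 : 40000 * U ^ 2 * (20 * U) = 800000 * U ^ 3 := by ring
    have h10 : 0 < U ^ 3 := by positivity
    omega
  -- d in terms of v
  have hdU : 10 ^ 7 * U ≤ d := (Nat.mul_le_mul_left _ hUW).trans hd
  have hdv : 10 ^ 9 * d ≤ v := by
    have h4 : 10 ^ 9 * d * U ≤ v * U := by
      calc 10 ^ 9 * d * U = 100 * (d * (10 ^ 7 * U)) := by ring
        _ ≤ 100 * (d * d) := by
            apply Nat.mul_le_mul_left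
            exact Nat.mul_le_mul_left _ hdU
        _ = 100 * d ^ 2 := by ring
        _ ≤ v * U := h1
    exact Nat.le_of_mul_le_mul_right h4 hU0
  obtain ⟨N, hN⟩ : ∃ N, N = 3 * (5 * d ^ 2) + 3 * (s + 1) * U ^ 2 := ⟨_, rfl⟩
  obtain ⟨M, hM⟩ : ∃ M, M = 10 ^ 23 * W ^ 6 := ⟨_, rfl⟩
  obtain ⟨a, ha⟩ : ∃ a, a = N / U := ⟨_, rfl⟩
  obtain ⟨δ, hδ⟩ : ∃ δ, δ = M / d ^ 4 := ⟨_, rfl⟩
  have ha1 : U * a ≤ N := by rw [ha]; exact Nat.mul_div_le N U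
  have ha2 : N ≤ U * (a + 1) := by
    rw [ha]
    exact (Nat.lt_mul_div_succ N hU0).le
  have hδ1 : d ^ 4 * δ ≤ M := by rw [hδ]; exact Nat.mul_div_le M (d ^ 4)
  have hδ2 : M ≤ d ^ 4 * (δ + 1) := by
    rw [hδ]
    exact (Nat.lt_mul_div_succ M hd4).le
  -- bounds for a
  have haS : a ≤ 15 * d ^ 2 / U + 3 * ((s + 1) * U) := by
    rw [ha, hN]
    have h4 : 3 * (5 * d ^ 2) + 3 * (s + 1) * U ^ 2 = 15 * d ^ 2 + U * (3 * ((s + 1) * U)) := by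
      ring
    rw [h4, Nat.add_mul_div_left _ _ hU0]
  obtain ⟨b, hb⟩ : ∃ b, b = 15 * d ^ 2 / U := ⟨_, rfl⟩
  have hb1 : U * b ≤ 15 * d ^ 2 := by rw [hb]; exact Nat.mul_div_le _ U
  rw [← hb] at haS
  have hb2 : 20 * b ≤ 3 * v := by
    have h4 : 20 * b * U ≤ 3 * v * U := by nlinarith
    exact Nat.le_of_mul_le_mul_right h4 hU0
  have hb3 : 200 * b ≤ 3 * d ^ 2 := by
    have h4 : 1000 * b ≤ U * b := Nat.mul_le_mul_right _ (by omega)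
    omega
  -- bounds for δ
  have hδv : 100 * δ ≤ v := by
    have h4 : 100 * δ * d ^ 4 ≤ v * d ^ 4 := by
      have h5 : 100 * δ * d ^ 4 = 100 * (d ^ 4 * δ) := by ring
      have h6 : 100 * M ≤ v * d ^ 4 := by
        rw [hM]
        calc 100 * (10 ^ 23 * W ^ 6) = 10 ^ 25 * W ^ 6 := by ring
          _ ≤ v * d ^ 4 := h3
      omega
    exact Nat.le_of_mul_le_mul_right h4 hd4
  have hδd : 1000 * δ ≤ d ^ 2 := by
    have h4 : 1000 * δ * d ^ 4 ≤ d ^ 2 * d ^ 4 := by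
      have h5 : (10 ^ 7 * W) ^ 6 ≤ d ^ 6 := Nat.pow_le_pow_left hd 6
      have h6 : (10 ^ 7 * W) ^ 6 = 10 ^ 42 * W ^ 6 := by ring
      have h7 : d ^ 2 * d ^ 4 = d ^ 6 := by ring
      have h8 : 1000 * M ≤ 10 ^ 42 * W ^ 6 := by
        rw [hM]
        calc 1000 * (10 ^ 23 * W ^ 6) = 10 ^ 26 * W ^ 6 := by ring
          _ ≤ 10 ^ 42 * W ^ 6 := Nat.mul_le_mul_right _ (by norm_num)
      have h9 : 1000 * δ * d ^ 4 = 1000 * (d ^ 4 * δ) := by ring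
      omega
    exact Nat.le_of_mul_le_mul_right h4 hd4
  -- small terms
  have hdd : 10 ^ 10 * d ≤ d ^ 2 := by
    have h4 : 10 ^ 10 ≤ d := by
      calc 10 ^ 10 = 10 ^ 7 * 10 ^ 3 := by norm_num
        _ ≤ 10 ^ 7 * U := Nat.mul_le_mul_left _ hU
        _ ≤ d := hdU
    calc 10 ^ 10 * d ≤ d * d := Nat.mul_le_mul_right _ h4
      _ = d ^ 2 := by ring
  have hsd : 10 ^ 14 * ((s + 1) * U) ≤ d ^ 2 := by
    calc 10 ^ 14 * ((s + 1) * U) ≤ 10 ^ 14 * (U * U) :=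
          Nat.mul_le_mul_left _ (Nat.mul_le_mul_right _ hsU)
      _ = (10 ^ 7 * U) ^ 2 := by ring
      _ ≤ d ^ 2 := Nat.pow_le_pow_left hdU 2
  refine ⟨a + 1, δ + 1, 3 * (a + 1) + 3 * (δ + 1) + 2 * d + 1, ?_, ?_, le_rfl, ?_, ?_⟩
  · rw [← hM, mul_comm]
    exact hδ2
  · rw [← hN]
    exact ha2
  · omega
  · omega

theorem exists_sub {ms : Multiset ℕ} {W x : ℕ} (hms : ∀ μ ∈ ms, μ + 1 ≤ W) (hx : x ≤ cd ms) :
    ∃ gs ≤ ms, x ≤ cd gs ∧ cd gs ≤ x + W ^ 2 := by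
  induction ms using Multiset.induction_on with
  | empty =>
    rw [cd_zero] at hx
    exact ⟨0, le_rfl, by rw [cd_zero]; exact hx, by rw [cd_zero]; exact Nat.zero_le _⟩
  | cons m ms ih =>
    by_cases hc : x ≤ cd ms
    · obtain ⟨gs, hg, h1, h2⟩ := ih (fun μ hμ => hms μ (Multiset.mem_cons_of_mem hμ)) hc
      exact ⟨gs, le_trans hg (Multiset.le_cons_self _ _), h1, h2⟩
    · refine ⟨m ::ₘ ms, le_rfl, hx, ?_⟩
      rw [cd_cons]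
      have h1 := hms m (Multiset.mem_cons_self _ _)
      have h2 := two_mul_kk m
      have h3 : kk m ≤ W ^ 2 := by
        have h4 : (m + 1) * (m + 1) ≤ W * W := Nat.mul_le_mul h1 h1
        nlinarith
      omega

end Pool.Agent.helper25.ST
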