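import Pool.Agent.helper25.ST.Defs

set_option autoImplicit false

/-!
# Separating the zeros and ones
-/

namespace Pool.Agent.helper25.ST

open MvPolynomial Pool.Agent.helper5.NBS Pool.Agent.helper89.Segre Pool.Agent.SH9

lemma kk_zero : kk 0 = 0 := by decide

/-- sum of squares -/
def Q2 (ms : Multiset ℕ) : ℕ := (ms.map fun μ => μ ^ 2).sum

/-- every multiset consists of elements `≥ 2`, ones and zeros -/
lemma split (ms : Multiset ℕ) : ∃ (a : Multiset ℕ) (s z : ℕ),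
    ms = a + Multiset.replicate s 1 + Multiset.replicate z 0 ∧ (∀ μ ∈ a, 2 ≤ μ) ∧ a ≤ ms ∧
      cd ms = cd a + s ∧ 4 * S2 a ≤ 9 * Q2 ms ∧ 2 * S2 a ≤ 9 * cd a ∧ 2 * cd ms = Q2 ms + ms.sum := by
  induction ms using Multiset.induction_on with
  | empty => exact ⟨0, 0, 0, by simp, by simp, le_refl _, by simp [cd], by simp [S2], by simp [S2], by
      simp [cd, Q2]⟩
  | cons m ms ih =>
    obtain ⟨a, s, z, h1, h2, h3, h4, h5, h6, h7⟩ := ih
    have hk := two_mul_kk m
    have hQ : Q2 (m ::ₘ ms) = m ^ 2 + Q2 ms := by simp [Q2]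
    have h8 : 2 * cd (m ::ₘ ms) = Q2 (m ::ₘ ms) + (m ::ₘ ms).sum := by
      rw [cd_cons, hQ, Multiset.sum_cons, mul_add, h7, hk]
      ring
    rcases Nat.lt_or_ge m 2 with hm | hm
    · have hm' : m = 0 ∨ m = 1 := by omega
      rcases hm' with rfl | rfl
      · refine ⟨a, s, z + 1, ?_, h2, h3.trans (Multiset.le_cons_self _ _), ?_, ?_, h6, h8⟩
        · rw [Multiset.replicate_succ, Multiset.add_cons, ← h1]
        · rw [cd_cons, kk_zero, zero_add, h4]
        · rw [hQ]; omega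
      · refine ⟨a, s + 1, z, ?_, h2, h3.trans (Multiset.le_cons_self _ _), ?_, ?_, h6, h8⟩
        · rw [Multiset.replicate_succ, Multiset.add_cons, Multiset.cons_add, ← h1]
        · rw [cd_cons, kk_one, h4]; omega
        · rw [hQ]; omega
    · refine ⟨m ::ₘ a, s, z, ?_, ?_, Multiset.cons_le_cons m h3, ?_, ?_, ?_, h8⟩
      · rw [Multiset.cons_add, Multiset.cons_add, ← h1]
      · intro μ hμ
        rcases Multiset.mem_cons.mp hμ with rfl | h
        · exact hm
        · exact h2 _ h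
      · rw [cd_cons, cd_cons, h4]; omega
      · rw [hQ, S2_cons]; nlinarith
      · rw [S2_cons, cd_cons]; nlinarith

lemma Q2_map {n : ℕ} (μ : Fin n → ℕ) : Q2 (Finset.univ.val.map μ) = ∑ i, μ i ^ 2 := by
  rw [Q2, Multiset.map_map]; rfl

lemma sum_map {n : ℕ} (μ : Fin n → ℕ) : (Finset.univ.val.map μ).sum = ∑ i, μ i := rfl

lemma cd_map {n : ℕ} (μ : Fin n → ℕ) : cd (Finset.univ.val.map μ) = ∑ i, kk (μ i) := by
  rw [cd, Multiset.map_map]; rfl

lemma S2_map {n : ℕ} (μ : Fin n → ℕ) : S2 (Finset.univ.val.map μ) = ∑ i, (μ i + 1) ^ 2 := by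
  rw [S2, Multiset.map_map]; rfl

lemma S1_map {n : ℕ} (μ : Fin n → ℕ) : S1 (Finset.univ.val.map μ) = ∑ i, (μ i + 1) := by
  rw [S1, Multiset.map_map]; rfl

end Pool.Agent.helper25.ST
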