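import Pool.Agent.helper25.ST.Nef12
import Pool.Agent.helper25.ST.NumMain
import Pool.Agent.helper25.ST.Split

set_option autoImplicit false

/-!
# Module MainE: the empty half

Numbers `A, Δ, w` of `numMain` (`w ≤ v`). Take `gs ≤ ms` with `C + w ≤ cd gs ≤ C + w + W ^ 2`
(`exists_sub`, `x = C + w ≤ C + v = cd ms`). Write `gs = a + replicate s 1 + replicate z 0` with all
elements of `a` at least 2 (`split`, module Split, proved). Then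
`S2 a ≤ (9/2) cd gs ≤ (9/4)(d+1)(d+2) + (9/8) d ^ 2 + (9/2) W ^ 2 ≤ 5 d ^ 2` (`4 w ≤ d ^ 2`,
`10 ^ 7 W ≤ d`); `proc` for `a`, `s`, `Φ = 5 d ^ 2`, `nef2` (second alternative of `h`); `E.add` for the
zeros and for the rest `ms - gs`.
-/

namespace Pool.Agent.helper25.ST

open MvPolynomial Pool.Agent.helper5.NBS Pool.Agent.helper89.Segre Pool.Agent.SH9

theorem mainE {d U W v : ℕ} {ms : Multiset ℕ} (hU : 10 ^ 3 ≤ U) (hUW : U ≤ W)
    (hd : 10 ^ 7 * W ≤ d) (hms : ∀ μ ∈ ms, μ + 1 ≤ W) (hv : (d + 2).choose 2 + v = cd ms)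
    (h1 : 100 * d ^ 2 ≤ v * U) (h2 : 10 ^ 6 * U ^ 3 ≤ v ^ 2) (h3 : 10 ^ 25 * W ^ 6 ≤ v * d ^ 4) :
    E d ms := by
  obtain ⟨A, Δ, w, c1, c2, c3, c4, c5⟩ := numMain hU hUW hd h1 h2 h3
  have hU1 : 1 ≤ U := le_trans (by norm_num) hU
  have hW1 : 1 ≤ W := hU1.trans hUW
  have ht := two_choose d
  have hd1 : 10 ^ 10 ≤ d := by
    have : 10 ^ 7 * 10 ^ 3 ≤ 10 ^ 7 * W := Nat.mul_le_mul_left _ (hU.trans hUW)
    calc 10 ^ 10 = 10 ^ 7 * 10 ^ 3 := by norm_num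
      _ ≤ _ := this
      _ ≤ _ := hd
  obtain ⟨gs, hg, g1, g2⟩ := exists_sub (W := W) (x := (d + 2).choose 2 + w) hms
    (by rw [← hv]; exact Nat.add_le_add_left c4 _)
  obtain ⟨a, s, z, e1, e2, e3, e4, -, e6, -⟩ := split gs
  have hWd : W ^ 2 ≤ d ^ 2 := Nat.pow_le_pow_left (by omega) 2
  have hWd' : 100 * W ^ 2 ≤ d ^ 2 := by
    calc 100 * W ^ 2 ≤ (10 ^ 7 * W) ^ 2 := by nlinarith [Nat.zero_le (W ^ 2)]
      _ ≤ d ^ 2 := Nat.pow_le_pow_left hd 2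
  have hdd : 10 ^ 10 * d ≤ d ^ 2 := by
    calc 10 ^ 10 * d ≤ d * d := Nat.mul_le_mul_right _ hd1
      _ = d ^ 2 := by ring
  have hΦ : S2 a ≤ 5 * d ^ 2 := by
    have h5 : (d + 1) * (d + 2) = d ^ 2 + 3 * d + 2 := by ring
    rw [h5] at ht
    omega
  have hP := proc (d := d) (W := W) (Δ := Δ) (Φ := 5 * d ^ 2) (A := A) (w := w) hU1
    hUW (nef2 hW1 hd c1) c2 c3 a s
    (fun μ hμ => ⟨e2 μ hμ, hms μ (Multiset.mem_of_le hg (Multiset.mem_of_le e3 hμ))⟩) hΦ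
    (by rw [← e4]; omega) (Or.inr (by rw [← e4]; exact g1))
  have hQ := hP.add (Multiset.replicate z 0)
  rw [← e1] at hQ
  obtain ⟨rest, rfl⟩ := Multiset.le_iff_exists_add.mp hg
  exact hQ.add rest

end Pool.Agent.helper25.ST
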