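import Pool.Agent.helper25.ST.MainR
import Pool.Agent.helper25.ST.MainE
import Pool.Agent.helper89.Segre.Results

set_option autoImplicit false

/-!
# Module Main: the main theorem

`ms = univ.val.map m`, `cd ms = ∑ C(m_k + 1, 2)`. In both cases
`Good ℂ (tri d) ms (min ..)`: if `cd ms + v = C(d+2,2)`: `mainR` and `good_of_E_ones` give
`Good ℂ (tri d) ms ((tri d).card - v)`, `(tri d).card = C(d+2,2)`; if `C(d+2,2) + v = cd ms`: `mainE`
(`E` is `Good ℂ (tri d) ms (tri d).card`). Then `generic_of_good` as in `awayFromZero`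
(helper89.Segre.Results).
-/

namespace Pool.Agent.helper25.ST

open MvPolynomial Pool.Agent.helper5.NBS Pool.Agent.helper89.Segre Pool.Agent.SH9

/-- every system of degree `d` with multiplicities less than `W ≤ d / 10 ^ 7` whose
virtual dimension `± v` is not small; `U` is free between `10 ^ 3` and `W` -/
theorem main (d h U W v : ℕ) (m : Fin h → ℕ) (hU : 10 ^ 3 ≤ U) (hUW : U ≤ W) (hd : 10 ^ 7 * W ≤ d)
    (hm : ∀ i, m i < W)
    (hv : ∑ k, (m k + 1).choose 2 + v = (d + 2).choose 2 ∨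
      (d + 2).choose 2 + v = ∑ k, (m k + 1).choose 2)
    (h1 : 100 * d ^ 2 ≤ v * U) (h2 : 10 ^ 6 * U ^ 3 ≤ v ^ 2) (h3 : 10 ^ 25 * W ^ 6 ≤ v * d ^ 4) :
    ∃ Q : MvPolynomial (Fin h × Fin 3) ℂ, Q ≠ 0 ∧ ∀ p : Fin h → Fin 3 → ℂ,
      eval (fun ij : Fin h × Fin 3 => p ij.1 ij.2) Q ≠ 0 →
      Module.finrank ℂ (sys d h m p) = (d + 2).choose 2 - ∑ k, (m k + 1).choose 2 := by
  have hcd : cd (Finset.univ.val.map m) = ∑ k, (m k + 1).choose 2 := sumkk_eq m
  have hms : ∀ μ ∈ (Finset.univ.val.map m : Multiset ℕ), μ + 1 ≤ W := by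
    intro μ hμ
    obtain ⟨i, _, rfl⟩ := Multiset.mem_map.mp hμ
    exact hm i
  apply generic_of_good
  rcases hv with hv | hv
  · have hE := mainR hU hUW hd hms (by rw [hcd]; exact hv) h1 h2 h3
    have hG := good_of_E_ones hE
    rw [card_tri] at hG
    rw [Nat.min_eq_left (by omega)]
    have he : (d + 2).choose 2 - v = ∑ k, (m k + 1).choose 2 := by omega
    rwa [he] at hG
  · have hE := mainE hU hUW hd hms (by rw [hcd]; exact hv) h1 h2 h3
    rw [Nat.min_eq_right (by omega)]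
    change Good ℂ (tri d) _ (tri d).card at hE
    rwa [card_tri] at hE

end Pool.Agent.helper25.ST
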