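import Pool.Agent.helper25.ST.Defs

set_option autoImplicit false

/-!
# Module FinN: the final configuration, case N (no curve, by nefness)

`ms` the big points, `s` simple points, `C = C(d+2,2) < cd ms + S1 ms + Δ`. Let `n = card ms + s`,
weights `w = (T, 1, ..., 1)` (`Fin.append`, or `exists_fin` for `ms + replicate s 1`),
`Σ = ∑ w ^ 2 = ∑ T ^ 2 + s`. `∑ T ^ 2 ≥ 2 cd - S1` (`2 kk T + T = T ^ 2 + 2 T`... use `two_mul_kk`:
`T ^ 2 = 2 kk T - T`). In both cases of `h`: `Σ ≥ d ^ 2 + 2 d + Δ + 1`: if `w ≤ s`: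
`2 cd ≥ 2 C - 2 S1 - 2 Δ + 2`, so `Σ ≥ d ^ 2 + 3 d + 4 - 3 A - 2 Δ + w`; if `C + w ≤ cd + s`:
`Σ ≥ cd + C + w - S1 ≥ 2 C + w - 2 A - Δ`. `D = Nat.sqrt (Σ + Δ) + 1`; `numN` (if `Σ ≤ (q + 1) d` with
`q = sqrt (Σ + Δ)`, then with `q + 1 = d + k`: `k ≥ 3`, `(k - 2) d ≥ Δ + 1`, but
`(d + k - 1) ^ 2 ≤ Σ + Δ ≤ (d + k) d + Δ` gives `(k - 2) d + (k - 1) ^ 2 ≤ Δ`). At a very general
configuration (`NefT`, `exists_avoid`) a curve `F ≠ 0` with `wdeg 1 F ≤ d`, multiplicities `≥ w i`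
(`mem_pow_iff_le_mult`) would give `Σ ≤ ∑ w i mult_i F ≤ D d < Σ`. So `Emp`, `E_of_emp`.
-/

namespace Pool.Agent.helper25.ST

open MvPolynomial Pool.Agent.helper5.NBS Pool.Agent.helper89.Segre Pool.Agent.SH9

/-- the numerical part -/
theorem numN {d Δ Sg : ℕ} (h : d ^ 2 + 2 * d + Δ + 1 ≤ Sg) :
    (Nat.sqrt (Sg + Δ) + 1) * d < Sg ∧ d ≤ Nat.sqrt (Sg + Δ) + 1 ∧
      Sg + Δ ≤ (Nat.sqrt (Sg + Δ) + 1) ^ 2 := by
  have hq1 := Nat.sqrt_le' (Sg + Δ)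
  have hq2 := Nat.lt_succ_sqrt' (Sg + Δ)
  rw [Nat.succ_eq_add_one] at hq2
  generalize Nat.sqrt (Sg + Δ) = q at hq1 hq2 ⊢
  have hd : d < q + 1 := by
    by_contra hcon
    push Not at hcon
    have : (q + 1) ^ 2 ≤ d ^ 2 := Nat.pow_le_pow_left hcon 2
    omega
  refine ⟨?_, by omega, hq2.le⟩
  by_contra hcon
  push Not at hcon
  obtain ⟨j, rfl⟩ : ∃ j, q = d + j := ⟨q - d, by omega⟩
  nlinarith

lemma sq_ge (ms : Multiset ℕ) : 2 * cd ms ≤ (ms.map fun μ => μ ^ 2).sum + S1 ms := by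
  induction ms using Multiset.induction_on with
  | empty => simp [cd, S1]
  | cons m ms ih =>
    rw [cd_cons, S1_cons, Multiset.map_cons, Multiset.sum_cons]
    have := two_mul_kk m
    nlinarith

theorem finN {d W Δ A w s : ℕ} {ms : Multiset ℕ} (hW : 1 ≤ W) (hNef : NefT d W Δ)
    (hms : ∀ μ ∈ ms, μ + 1 ≤ W) (hA : S1 ms ≤ A) (hw : 3 * A + 3 * Δ + 2 * d + 1 ≤ w)
    (hR : (d + 2).choose 2 < cd ms + S1 ms + Δ)
    (h : w ≤ s ∨ (d + 2).choose 2 + w ≤ cd ms + s) :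
    E d (ms + Multiset.replicate s 1) := by
  classical
  obtain ⟨n, m, hm⟩ : ∃ n : ℕ, ∃ m : Fin n → ℕ,
      Finset.univ.val.map m = ms + Multiset.replicate s 1 := ⟨_, exists_fin _⟩
  have hsum : ∑ i, m i ^ 2 = (ms.map fun μ => μ ^ 2).sum + s := by
    have h1 : ∑ i, m i ^ 2 = ((Finset.univ.val.map m).map fun μ => μ ^ 2).sum := by
      rw [Multiset.map_map]
      rfl
    rw [h1, hm, Multiset.map_add, Multiset.sum_add, Multiset.map_replicate, Multiset.sum_replicate]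
    simp
  have e1 := sq_ge ms
  have e2 := two_choose d
  have hbig : d ^ 2 + 2 * d + Δ + 1 ≤ ∑ i, m i ^ 2 := by
    rw [hsum]
    have e3 : (d + 1) * (d + 2) = d ^ 2 + 3 * d + 2 := by ring
    rcases h with h | h <;> omega
  obtain ⟨n1, n2, n3⟩ := numN hbig
  have hwt : ∀ i, m i ≤ W := by
    intro i
    have h1 : m i ∈ ms + Multiset.replicate s 1 := by
      rw [← hm]
      exact Multiset.mem_map_of_mem m (Finset.mem_univ_val i)
    rcases Multiset.mem_add.mp h1 with h2 | h2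
    · have := hms _ h2
      omega
    · rw [Multiset.eq_of_mem_replicate h2]
      exact hW
  obtain ⟨S, hSc, hS0, hSq⟩ := hNef n m hwt _ n2 n3
  obtain ⟨x, hx⟩ := Pool.Agent.helper7.SC.exists_avoid S hSc hS0
  let q : Fin n → Fin 2 → ℂ := fun i l => x (i, l)
  have hq : ∀ Q ∈ S, evP q Q ≠ 0 := fun Q hQ => hx Q hQ
  obtain ⟨_, hnef⟩ := hSq q hq
  rw [← hm]
  refine E_of_emp (p := q) ?_
  intro F hF hmem
  by_contra hF0
  have h1 := hnef F hF0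
  have h2 : ∑ i, m i ^ 2 ≤ ∑ i, m i * mult (q i) F := by
    apply Finset.sum_le_sum
    intro i _
    rw [pow_two]
    exact Nat.mul_le_mul le_rfl ((mem_pow_iff_le_mult hF0).mp (hmem i))
  have h3 := Nat.mul_le_mul (le_refl (Nat.sqrt (∑ i, m i ^ 2 + Δ) + 1)) hF
  omega

end Pool.Agent.helper25.ST
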