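import Pool.Agent.helper25.ST.Defs
import Pool.Agent.SH9.Nine
import Mathlib.LinearAlgebra.Complex.FiniteDimensional

set_option autoImplicit false

/-!
# Module Nine: nine points on the cuspidal cubic `Y = X ^ 3`

For `t : Fin 9 → ℂ` injective let `p i = (t i, t i ^ 3)`. Let `F : R2`, `wdeg 1 F ≤ d`
(`= totalDegree`, `wdeg_eq`), `F ∈ ptIdeal (p i) ^ ν i`.
(1) `f(X) = F(X, X ^ 3)` has degree `≤ 3 d`, its coefficient at `X ^ (3 d - 1)` is `0` if `d ≥ 1`
(`i + 3 j = 3 d - 1`, `i + j ≤ d` is impossible), and `(X - t i) ^ ν i ∣ f` (the ideal `ptIdeal (p i)`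
is mapped into `(X - t i)`). So `∏ (X - t i) ^ ν i ∣ f`. If `∑ ν > 3 d` then `f = 0`. If `∑ ν = 3 d`,
`d ≥ 1` then `f = c ∏ (X - t i) ^ ν i` and the coefficient of `X ^ (3 d - 1)` is `- c ∑ ν i t i`, so
`f = 0` if `∑ ν i t i ≠ 0`.
(2) `f = 0` implies `Y - X ^ 3 ∣ F`, and if `F ≠ 0`: `F = (Y - X ^ 3) G`, `wdeg 1 G = wdeg 1 F - 3`
(so `d ≥ 3`), `G ∈ ptIdeal (p i) ^ (ν i - 1)`.
`nineE`, strict case `3 d < ∑ ν`: then `∑ (ν i - 1) ≥ ∑ ν - 9 > 3 (d - 3)`, induction on `d`
gives `G = 0`. Case `3 d = ∑ ν`, `ν` not constant: the `t i` linearly independent over the rational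
numbers, so `∑ (ν i - k) t i ≠ 0` for all `k`. If all `ν i ≥ 1` then `G` is in the same situation
(`d - 3`, `ν i - 1`), else `∑ (ν i - 1) > 3 (d - 3)`, strict case. `d = 0` in the equality case:
`∑ ν = 0`, `ν` constant, excluded.
-/

namespace Pool.Agent.helper25.ST

open MvPolynomial Pool.Agent.helper5.NBS Pool.Agent.helper89.Segre Pool.Agent.SH9

/-- restriction to the cubic `Y = X ^ 3` -/
private noncomputable def cub : R2 →ₐ[ℂ] Polynomial ℂ := aeval ![Polynomial.X, Polynomial.X ^ 3]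

private lemma cub_X0 : cub (X 0) = Polynomial.X := by simp [cub]

private lemma cub_X1 : cub (X 1) = Polynomial.X ^ 3 := by simp [cub]

private lemma cub_C (r : ℂ) : cub (C r) = Polynomial.C r := cub.commutes r

private lemma cub_monomial (n : Fin 2 →₀ ℕ) (c : ℂ) :
    cub (monomial n c) = Polynomial.monomial (n 0 + 3 * n 1) c := by
  rw [monomial_eq, map_mul, cub_C, Finsupp.prod_fintype _ _ (fun i => pow_zero _),
    Fin.prod_univ_two, map_mul, map_pow, map_pow, cub_X0, cub_X1, ← pow_mul, ← pow_add,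
    Polynomial.C_mul_X_pow_eq_monomial]

private lemma cub_coeff (F : R2) (k : ℕ) :
    (cub F).coeff k = ∑ n ∈ F.support, if n 0 + 3 * n 1 = k then coeff n F else 0 := by
  conv_lhs => rw [F.as_sum]
  rw [map_sum, Polynomial.finsetSum_coeff]
  apply Finset.sum_congr rfl
  intro n _
  rw [cub_monomial, Polynomial.coeff_monomial]

private lemma cub_top {d : ℕ} {F : R2} (hF : wdeg 1 F ≤ d) {k : ℕ}
    (hk : 3 * d < k ∨ k + 1 = 3 * d) : (cub F).coeff k = 0 := by
  rw [cub_coeff]
  apply Finset.sum_eq_zero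
  intro n hn
  rw [if_neg]
  have h1 : n 0 + 1 * n 1 ≤ wdeg 1 F := Finset.le_sup (f := fun n : Fin 2 →₀ ℕ => n 0 + 1 * n 1) hn
  omega

/-- the point of the cubic -/
private def cp (t : ℂ) : Fin 2 → ℂ := ![t, t ^ 3]

private lemma cub_dvd {t : ℂ} {ν : ℕ} {F : R2} (h : F ∈ ptIdeal (cp t) ^ ν) :
    (Polynomial.X - Polynomial.C t) ^ ν ∣ cub F := by
  have h1 : Ideal.map cub (ptIdeal (cp t)) ≤ Ideal.span {Polynomial.X - Polynomial.C t} := by
    rw [ptIdeal, Ideal.map_span, Ideal.span_le]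
    rintro _ ⟨_, ⟨i, rfl⟩, rfl⟩
    rw [SetLike.mem_coe, Ideal.mem_span_singleton]
    fin_cases i
    · simp only [Fin.zero_eta, map_sub, cub_X0, cub_C, cp, Matrix.cons_val_zero]
      exact dvd_refl _
    · simp only [Fin.mk_one, map_sub, cub_X1, cub_C, cp, Matrix.cons_val_one, Matrix.cons_val_zero,
        map_pow]
      exact sub_dvd_pow_sub_pow _ _ 3
  have h2 : cub F ∈ Ideal.map cub (ptIdeal (cp t) ^ ν) := Ideal.mem_map_of_mem _ h
  rw [Ideal.map_pow] at h2
  have h3 := Ideal.pow_right_mono h1 ν h2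
  rw [Ideal.span_singleton_pow, Ideal.mem_span_singleton] at h3
  exact h3

/-- the product of the linear forms -/
private noncomputable def PP {n : ℕ} (t : Fin n → ℂ) (ν : Fin n → ℕ) : Polynomial ℂ :=
  ∏ i, (Polynomial.X - Polynomial.C (t i)) ^ ν i

private lemma PP_monic {n : ℕ} (t : Fin n → ℂ) (ν : Fin n → ℕ) : (PP t ν).Monic :=
  Polynomial.monic_prod_of_monic _ _ (fun i _ => (Polynomial.monic_X_sub_C _).pow _)

private lemma PP_natDegree {n : ℕ} (t : Fin n → ℂ) (ν : Fin n → ℕ) :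
    (PP t ν).natDegree = ∑ i, ν i := by
  rw [PP, Polynomial.natDegree_prod_of_monic _ _ (fun i _ => (Polynomial.monic_X_sub_C _).pow _)]
  apply Finset.sum_congr rfl
  intro i _
  rw [Polynomial.natDegree_pow, Polynomial.natDegree_X_sub_C, mul_one]

private lemma PP_next {n : ℕ} (t : Fin n → ℂ) (ν : Fin n → ℕ) :
    (PP t ν).nextCoeff = - ∑ i, (ν i : ℂ) * t i := by
  rw [PP, Polynomial.Monic.nextCoeff_prod _ _ (fun i _ => (Polynomial.monic_X_sub_C _).pow _),
    ← Finset.sum_neg_distrib]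
  apply Finset.sum_congr rfl
  intro i _
  rw [Polynomial.Monic.nextCoeff_pow (Polynomial.monic_X_sub_C _), Polynomial.nextCoeff_X_sub_C,
    nsmul_eq_mul, mul_neg]

private lemma PP_dvd {n : ℕ} {t : Fin n → ℂ} (ht : Function.Injective t) {ν : Fin n → ℕ} {F : R2}
    (h : ∀ i, F ∈ ptIdeal (cp (t i)) ^ ν i) : PP t ν ∣ cub F := by
  apply Finset.prod_dvd_of_coprime
  · intro i _ j _ hij
    exact (Polynomial.pairwise_coprime_X_sub_C ht hij).pow
  · intro i _
    exact cub_dvd (h i)

/-- the cubic -/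
private noncomputable def KK : R2 := X 1 - X 0 ^ 3

private lemma dvd_of_cub {F : R2} (h : cub F = 0) : KK ∣ F := by
  have h1 : (Ideal.Quotient.mkₐ ℂ (Ideal.span {KK})).comp
      ((Polynomial.aeval (X 0 : R2)).comp cub) = Ideal.Quotient.mkₐ ℂ (Ideal.span {KK}) := by
    apply MvPolynomial.algHom_ext
    intro i
    fin_cases i
    · simp [cub_X0]
    · simp only [Fin.mk_one, AlgHom.comp_apply, cub_X1, map_pow, Polynomial.aeval_X]
      rw [← map_pow]
      simp only [Ideal.Quotient.mkₐ_eq_mk]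
      rw [Ideal.Quotient.eq, Ideal.mem_span_singleton]
      exact ⟨-1, by rw [KK]; ring⟩
  have h2 := DFunLike.congr_fun h1 F
  rw [AlgHom.comp_apply, AlgHom.comp_apply, h, map_zero, map_zero] at h2
  have h3 := h2.symm
  rw [Ideal.Quotient.mkₐ_eq_mk, Ideal.Quotient.eq_zero_iff_mem, Ideal.mem_span_singleton] at h3
  exact h3

private lemma KK_ne : KK ≠ 0 := by
  intro h
  have h1 := congrArg (eval (![0, 1] : Fin 2 → ℂ)) h
  simp [KK] at h1

private lemma KK_not (t : ℂ) : KK ∉ ptIdeal (cp t) ^ 2 := by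
  intro h
  have h1 := pderiv_mem h 1
  rw [KK, map_sub, pderiv_X_self, Derivation.leibniz_pow, pderiv_X_of_ne (by decide)] at h1
  simp at h1

private lemma KK_wdeg : 3 ≤ wdeg 1 KK := by
  have h1 : (Finsupp.single 0 3 : Fin 2 →₀ ℕ) ∈ KK.support := by
    rw [mem_support_iff, KK, coeff_sub, coeff_X_pow, coeff_X]
    have : ¬ (Finsupp.single (1 : Fin 2) 1 : Fin 2 →₀ ℕ) = Finsupp.single 0 3 := by
      intro h
      have := DFunLike.congr_fun h 1
      simp at this
    simp [this]
  have h2 : (Finsupp.single 0 3 : Fin 2 →₀ ℕ) 0 + 1 * (Finsupp.single 0 3 : Fin 2 →₀ ℕ) 1 ≤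
      wdeg 1 KK := Finset.le_sup (f := fun n : Fin 2 →₀ ℕ => n 0 + 1 * n 1) h1
  simpa using h2

/-- one step of the induction -/
private lemma stepK {n d : ℕ} {t : Fin n → ℂ} {ν : Fin n → ℕ} {F : R2} (hF : F ≠ 0)
    (hd : wdeg 1 F ≤ d) (h : ∀ i, F ∈ ptIdeal (cp (t i)) ^ ν i) (h0 : cub F = 0) :
    3 ≤ d ∧ ∃ G : R2, G ≠ 0 ∧ wdeg 1 G ≤ d - 3 ∧ ∀ i, G ∈ ptIdeal (cp (t i)) ^ (ν i - 1) := by
  obtain ⟨G, rfl⟩ := dvd_of_cub h0
  have hG : G ≠ 0 := by
    rintro rfl
    exact hF (mul_zero _)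
  have h1 := wdeg_mul 1 KK_ne hG
  have h2 := KK_wdeg
  refine ⟨by omega, G, hG, by omega, ?_⟩
  intro i
  rcases Nat.eq_zero_or_pos (ν i) with h3 | h3
  · rw [h3]
    simp
  · apply mem_pow_of_mul_mem (KK_not (t i))
    exact h i

private lemma empS {t : Fin 9 → ℂ} (ht : Function.Injective t) (d : ℕ) :
    ∀ ν : Fin 9 → ℕ, 3 * d < ∑ i, ν i → Emp d ν (fun i => cp (t i)) := by
  induction d using Nat.strong_induction_on with
  | _ d ih =>
    intro ν hν F hF hm
    by_contra hne
    have h1 : cub F = 0 := by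
      have h2 := PP_dvd ht hm
      by_contra h3
      have h4 := Polynomial.natDegree_le_of_dvd h2 h3
      rw [PP_natDegree] at h4
      have h5 : (cub F).natDegree ≤ 3 * d := by
        rw [Polynomial.natDegree_le_iff_coeff_eq_zero]
        intro k hk
        exact cub_top hF (Or.inl hk)
      omega
    obtain ⟨h3, G, hG, hGd, hGm⟩ := stepK hne hF hm h1
    refine hG (ih (d - 3) (by omega) (fun i => ν i - 1) ?_ G hGd hGm)
    have h4 : ∑ i, ν i ≤ ∑ i, (ν i - 1) + 9 := by
      have : ∑ i : Fin 9, (ν i - 1) + 9 = ∑ i : Fin 9, ((ν i - 1) + 1) := by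
        rw [Finset.sum_add_distrib]
        simp
      rw [this]
      apply Finset.sum_le_sum
      intro i _
      omega
    omega

private lemma empQ {t : Fin 9 → ℂ} (ht : Function.Injective t) (d : ℕ) :
    ∀ ν : Fin 9 → ℕ, 3 * d = ∑ i, ν i → (∀ k : ℕ, ∑ i, ((ν i : ℂ) - k) * t i ≠ 0) →
      Emp d ν (fun i => cp (t i)) := by
  induction d using Nat.strong_induction_on with
  | _ d ih =>
    intro ν hν hk F hF hm
    by_contra hne
    have hd : 1 ≤ d := by
      by_contra h0
      have h1 : ∑ i, ν i = 0 := by omega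
      rw [Finset.sum_eq_zero_iff] at h1
      apply hk 0
      apply Finset.sum_eq_zero
      intro i _
      rw [h1 i (Finset.mem_univ i)]
      simp
    have h1 : cub F = 0 := by
      obtain ⟨c, hc⟩ := PP_dvd ht hm
      by_contra h3
      have h5 : (cub F).natDegree ≤ 3 * d := by
        rw [Polynomial.natDegree_le_iff_coeff_eq_zero]
        intro k hk
        exact cub_top hF (Or.inl hk)
      have hc0 : c ≠ 0 := by
        rintro rfl
        exact h3 (by rw [hc, mul_zero])
      have h6 : (cub F).natDegree = ∑ i, ν i + c.natDegree := by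
        rw [hc, Polynomial.natDegree_mul (PP_monic t ν).ne_zero hc0, PP_natDegree]
      have h7 : c.natDegree = 0 := by omega
      rw [Polynomial.natDegree_eq_zero] at h7
      obtain ⟨a, rfl⟩ := h7
      have h8 : (cub F).coeff (3 * d - 1) = 0 := cub_top hF (Or.inr (by omega))
      have h9 : (PP t ν).coeff (3 * d - 1) = - ∑ i, (ν i : ℂ) * t i := by
        rw [← PP_next, Polynomial.nextCoeff_of_natDegree_pos (by rw [PP_natDegree]; omega),
          PP_natDegree, hν]
      rw [hc, Polynomial.coeff_mul_C, h9] at h8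
      have h10 := hk 0
      simp only [Nat.cast_zero, sub_zero] at h10
      rcases mul_eq_zero.mp h8 with h | h
      · exact h10 (by simpa using h)
      · exact hc0 (by rw [h, Polynomial.C_0])
    obtain ⟨h3, G, hG, hGd, hGm⟩ := stepK hne hF hm h1
    by_cases hall : ∀ i, 1 ≤ ν i
    · refine hG (ih (d - 3) (by omega) (fun i => ν i - 1) ?_ ?_ G hGd hGm)
      · have h4 : ∑ i, ν i = ∑ i, (ν i - 1) + 9 := by
          have : ∑ i : Fin 9, (ν i - 1) + 9 = ∑ i : Fin 9, ((ν i - 1) + 1) := by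
            rw [Finset.sum_add_distrib]
            simp
          rw [this]
          apply Finset.sum_congr rfl
          intro i _
          have := hall i
          omega
        omega
      · intro k
        have h5 := hk (k + 1)
        convert h5 using 3 with i _
        rw [Nat.cast_sub (hall i)]
        push_cast
        ring
    · push Not at hall
      obtain ⟨j, hj⟩ := hall
      refine hG (empS ht (d - 3) (fun i => ν i - 1) ?_ G hGd hGm)
      have h4 : ∑ i, ν i < ∑ i, (ν i - 1) + 9 := by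
        have : ∑ i : Fin 9, (ν i - 1) + 9 = ∑ i : Fin 9, ((ν i - 1) + 1) := by
          rw [Finset.sum_add_distrib]
          simp
        rw [this]
        apply Finset.sum_lt_sum
        · intro i _
          omega
        · exact ⟨j, Finset.mem_univ j, by omega⟩
      omega

private lemma exists_t : ∃ t : Fin 9 → ℂ, LinearIndependent ℚ t := by
  apply exists_linearIndependent_of_le_rank
  rw [Complex.rank_rat_complex]
  exact (Cardinal.natCast_lt_aleph0).le.trans Cardinal.aleph0_le_continuum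

theorem nineE {d : ℕ} {gs : Multiset ℕ} (hc : Multiset.card gs = 9)
    (h : 3 * d < gs.sum ∨ (3 * d = gs.sum ∧ ∃ a ∈ gs, ∃ b ∈ gs, a ≠ b)) : E d gs := by
  obtain ⟨m, hm⟩ := exists_fin gs
  revert m
  rw [hc]
  intro ν hν
  obtain ⟨t, ht⟩ := exists_t
  have hsum : gs.sum = ∑ i, ν i := by
    rw [← hν]
    rfl
  have key : Emp d ν (fun i => cp (t i)) := by
    rcases h with h | ⟨h, a, ha, b, hb, hab⟩
    · exact empS ht.injective d ν (by omega)
    · apply empQ ht.injective d ν (by omega)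
      intro k hk
      have h1 : ∑ i, ((ν i : ℚ) - k) • t i = 0 := by
        rw [← hk]
        apply Finset.sum_congr rfl
        intro i _
        rw [Algebra.smul_def]
        simp
      have h2 := Fintype.linearIndependent_iff.mp ht _ h1
      rw [← hν, Multiset.mem_map] at ha hb
      obtain ⟨i, _, rfl⟩ := ha
      obtain ⟨j, _, rfl⟩ := hb
      apply hab
      have h3 := h2 i
      have h4 := h2 j
      have h5 : (ν i : ℚ) = ν j := by linarith
      exact_mod_cast h5
  have h1 := E_of_emp key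
  rw [hν] at h1
  exact h1

theorem nineC (m : ℕ) : E (3 * m) (Multiset.replicate 9 m + Multiset.replicate 1 1) := by
  apply E_ones_of_good (nine1 m)
  rw [card_tri]
  have h1 := two_mul_kk (3 * m + 1)
  have h2 := two_mul_kk m
  rw [kk] at h1 h2
  nlinarith

end Pool.Agent.helper25.ST
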