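import Mathlib

set_option autoImplicit false

/-!
# Module NineNum: nefness for nine nearly equal points, numerical part

Let `A = ∑ a`, `κ = 3 e - ∑ ν ≥ 0`, `Va = 9 ∑ a ^ 2 - A ^ 2`, `Vν = 9 ∑ ν ^ 2 - (∑ ν) ^ 2`. By Cauchy-Schwarz
`(9 ∑ a ν - A ∑ ν) ^ 2 ≤ Va Vν`. If all `ν i = 0` trivial. If `κ = 0`: `ν` is constant, `Vν = 0`,
`9 ∑ a ν = A ∑ ν = 3 e A ≤ 9 D e`. If `κ ≥ 1`: `xu` gives `∑ ν ^ 2 ≤ e ^ 2 + m`, `m ≤ e`, so
`Vν ≤ 9 e ^ 2 + 9 e - (3 e - κ) ^ 2 ≤ 9 e + 6 κ e ≤ 15 κ e`. Now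
`9 D e - 9 ∑ a ν ≥ 3 e (A + n) - A (3 e - κ) - √(Va Vν) = 3 e n + A κ - √(Va Vν)` and
`(3 e n + A κ) ^ 2 ≥ 12 e n A κ ≥ 15 κ e Va ≥ Va Vν`, since `5 Va ≤ 4 A n`.
-/

namespace Pool.Agent.helper25.ST

private theorem nineNum_cs (a ν : Fin 9 → ℤ) :
    (9 * ∑ i, a i * ν i - (∑ i, a i) * ∑ i, ν i) ^ 2 ≤
      (9 * ∑ i, a i ^ 2 - (∑ i, a i) ^ 2) * (9 * ∑ i, ν i ^ 2 - (∑ i, ν i) ^ 2) := by
  have h := Finset.sum_mul_sq_le_sq_mul_sq Finset.univ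
    (fun i => 9 * a i - ∑ k, a k) (fun i => 9 * ν i - ∑ k, ν k)
  have aux : ∀ (x y : Fin 9 → ℤ), ∑ i, (9 * x i - ∑ k, x k) * (9 * y i - ∑ k, y k) =
      9 * (9 * ∑ i, x i * y i - (∑ i, x i) * ∑ i, y i) := by
    intro x y
    have e1 : ∀ i, (9 * x i - ∑ k, x k) * (9 * y i - ∑ k, y k) =
        81 * (x i * y i) - 9 * (∑ k, y k) * x i - 9 * (∑ k, x k) * y i
          + (∑ k, x k) * (∑ k, y k) := by intro i; ring
    simp only [e1]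
    rw [Finset.sum_add_distrib, Finset.sum_sub_distrib, Finset.sum_sub_distrib,
      ← Finset.mul_sum, ← Finset.mul_sum, ← Finset.mul_sum, Finset.sum_const]
    simp only [Finset.card_univ, Fintype.card_fin, nsmul_eq_mul]
    push_cast
    ring
  have aux2 : ∀ (x : Fin 9 → ℤ), ∑ i, (9 * x i - ∑ k, x k) ^ 2 =
      9 * (9 * ∑ i, x i ^ 2 - (∑ i, x i) ^ 2) := by
    intro x
    have := aux x x
    simp only [← sq] at this
    exact this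
  rw [aux, aux2, aux2] at h
  nlinarith [h]

private theorem nineNum_va (a : Fin 9 → ℤ) :
    0 ≤ 9 * ∑ i, a i ^ 2 - (∑ i, a i) ^ 2 := by
  have h := sq_sum_le_card_mul_sum_sq (s := Finset.univ) (f := a)
  simp only [Finset.card_univ, Fintype.card_fin] at h
  push_cast at h
  linarith

private theorem nineNum_fin (A S Qa Qν P D e n m : ℕ) (hD : 3 * D = A + n)
    (hV : 45 * Qa ≤ 5 * A ^ 2 + 4 * A * n) (hlt : S < 3 * e) (hq : Qν ≤ e ^ 2 + m)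
    (hm : m ≤ e) (hs : 0 ≤ 9 * (Qa : ℤ) - (A : ℤ) ^ 2)
    (key : (9 * (P : ℤ) - (A : ℤ) * (S : ℤ)) ^ 2 ≤
      (9 * (Qa : ℤ) - (A : ℤ) ^ 2) * (9 * (Qν : ℤ) - (S : ℤ) ^ 2)) : P ≤ D * e := by
  obtain ⟨κ, hκ⟩ : ∃ κ : ℕ, 3 * e = S + κ := ⟨3 * e - S, by omega⟩
  have hκ1 : 1 ≤ κ := by omega
  zify at hD hV hq hm hκ hκ1 ⊢
  have hA0 : (0 : ℤ) ≤ A := Int.natCast_nonneg A
  have he0 : (0 : ℤ) ≤ e := Int.natCast_nonneg e
  have hn0 : (0 : ℤ) ≤ n := Int.natCast_nonneg n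
  have hκ0 : (0 : ℤ) ≤ κ := Int.natCast_nonneg κ
  generalize (A : ℤ) = A' at *
  generalize (S : ℤ) = S' at *
  generalize (Qa : ℤ) = Qa' at *
  generalize (Qν : ℤ) = Qν' at *
  generalize (P : ℤ) = P' at *
  generalize (D : ℤ) = D' at *
  generalize (e : ℤ) = e' at *
  generalize (n : ℤ) = n' at *
  generalize (m : ℤ) = m' at *
  generalize (κ : ℤ) = k at *
  have hS' : S' = 3 * e' - k := by linarith
  subst hS'
  have hke : e' ≤ k * e' := by nlinarith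
  have hVν : 9 * Qν' - (3 * e' - k) ^ 2 ≤ 15 * k * e' := by nlinarith [sq_nonneg k]
  have hVa : 5 * (9 * Qa' - A' ^ 2) ≤ 4 * A' * n' := by linarith
  have h1 : (9 * P' - A' * (3 * e' - k)) ^ 2 ≤ 12 * (A' * n' * k * e') := by
    have h2 : (9 * Qa' - A' ^ 2) * (9 * Qν' - (3 * e' - k) ^ 2) ≤
        (9 * Qa' - A' ^ 2) * (15 * k * e') := mul_le_mul_of_nonneg_left hVν hs
    have h3 : 5 * (9 * Qa' - A' ^ 2) * (3 * k * e') ≤ 4 * A' * n' * (3 * k * e') :=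
      mul_le_mul_of_nonneg_right hVa (by positivity)
    nlinarith
  have h4 : (9 * P' - A' * (3 * e' - k)) ^ 2 ≤ (3 * e' * n' + A' * k) ^ 2 := by
    nlinarith [sq_nonneg (3 * e' * n' - A' * k)]
  have h5 := abs_le_of_sq_le_sq h4 (by positivity)
  have h6 := (abs_le.mp h5).2
  nlinarith

theorem nineNum (a ν : Fin 9 → ℕ) (D e n : ℕ) (hD : 3 * D = ∑ i, a i + n) (hn : 1 ≤ n)
    (hV : 45 * ∑ i, a i ^ 2 ≤ 5 * (∑ i, a i) ^ 2 + 4 * (∑ i, a i) * n)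
    (hν : ∑ i, ν i ≤ 3 * e) (heq : ∑ i, ν i = 3 * e → ∀ i j, ν i = ν j)
    (xu : ∀ j, 0 < ν j → ∑ i, ν i ^ 2 ≤ e ^ 2 + ν j) (hνe : ∀ i, ν i ≤ e) :
    ∑ i, a i * ν i ≤ D * e := by
  by_cases h0 : ∀ i, ν i = 0
  · simp [h0]
  obtain ⟨j, hj⟩ := not_forall.mp h0
  have hjp : 0 < ν j := Nat.pos_of_ne_zero hj
  by_cases hS : ∑ i, ν i = 3 * e
  · have hc := heq hS
    have h1 : ∀ i, ν i = ν j := fun i => hc i j
    have h2 : ∑ i, ν i = 9 * ν j := by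
      rw [Finset.sum_congr rfl (fun i _ => h1 i)]
      simp
    have h3 : ∑ i, a i * ν i = (∑ i, a i) * ν j := by
      rw [Finset.sum_congr rfl (fun i _ => by rw [h1 i] : ∀ i ∈ Finset.univ,
        a i * ν i = a i * ν j), Finset.sum_mul]
    have h4 : e = 3 * ν j := by omega
    rw [h3, h4]
    have h5 : ∑ i, a i ≤ 3 * D := by omega
    calc (∑ i, a i) * ν j ≤ (3 * D) * ν j := Nat.mul_le_mul_right _ h5
      _ = D * (3 * ν j) := by ring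
  · have hlt : ∑ i, ν i < 3 * e := lt_of_le_of_ne hν hS
    have hq := xu j hjp
    have hje := hνe j
    have key := nineNum_cs (fun i => (a i : ℤ)) (fun i => (ν i : ℤ))
    have hva := nineNum_va (fun i => (a i : ℤ))
    have cA : ((∑ i, a i : ℕ) : ℤ) = ∑ i, (a i : ℤ) := by push_cast; rfl
    have cS : ((∑ i, ν i : ℕ) : ℤ) = ∑ i, (ν i : ℤ) := by push_cast; rfl
    have cQa : ((∑ i, a i ^ 2 : ℕ) : ℤ) = ∑ i, (a i : ℤ) ^ 2 := by push_cast; rfl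
    have cQν : ((∑ i, ν i ^ 2 : ℕ) : ℤ) = ∑ i, (ν i : ℤ) ^ 2 := by push_cast; rfl
    have cP : ((∑ i, a i * ν i : ℕ) : ℤ) = ∑ i, (a i : ℤ) * (ν i : ℤ) := by push_cast; rfl
    simp only [← cA, ← cS, ← cQa, ← cQν, ← cP] at key hva
    generalize (∑ i, a i : ℕ) = A at *
    generalize (∑ i, ν i : ℕ) = S at *
    generalize (∑ i, a i ^ 2 : ℕ) = Qa at *
    generalize (∑ i, ν i ^ 2 : ℕ) = Qν at *
    generalize (∑ i, a i * ν i : ℕ) = P at *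
    generalize ν j = m at *
    exact nineNum_fin A S Qa Qν P D e n m hD hV hlt hq hje hva key

end Pool.Agent.helper25.ST
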