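import Pool.Agent.helper25.ST.Nef0
import Pool.Agent.helper25.ST.Nine
import Pool.Agent.helper25.ST.NineNum
import Pool.Agent.helper1.KV.Final

set_option autoImplicit false

/-!
# Module NineReg: nine nearly equal points, regularity

`card_le`: choose `p` with `Emp d m p` (`E.generic`) and injective; then the linear map
`Vt d → Jet p m` (helper1.KV.Count: `jet`, `ker_jet`, `finrank_inf_ker`, `finrank_Vt`,
`finrank_Jet`) is injective.

`nineReg`: `gs = univ.val.map T`, `T : Fin 9 → ℕ` (`exists_fin`). `a i = T i + 1`, `3 (d + 3) = ∑ a + n`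
with `n = 3 d - ∑ T ≥ 1`. Very general `q : Fin 9 → ℂ²` (`exists_avoid` in helper7.SC): `VGN`, and
the polynomials of `E.generic` for all `(e, ν)` with `3 e < ∑ ν` or (`3 e = ∑ ν` and `ν` not constant)
(`nineE`; use `nefP_of`: its hypothesis `H` is proved by `nineE` if `3 e < ∑ μ` or (`=`, not constant), and
is void otherwise by `nineNum`). So `NefP (d + 3) a`. Then `kv_finrank` (`hbig`: `9 ∑ a ^ 2 < (A + n) ^ 2 =
9 (d + 3) ^ 2` from `hV`; `hex`: `∑ (a + 1) a < (d + 5) (d + 4)`), `good_of_finrank`,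
`E_ones_of_good` with `ρ = finrank`.
-/

namespace Pool.Agent.helper25.ST

open MvPolynomial Pool.Agent.helper5.NBS Pool.Agent.helper89.Segre Pool.Agent.SH9

private lemma exq {n : ℕ} (S : Set (PtRing n)) (hSc : S.Countable) (hS0 : ∀ P ∈ S, P ≠ 0) :
    ∃ q : Fin n → Fin 2 → ℂ, ∀ P ∈ S, evP q P ≠ 0 := by
  obtain ⟨x, hx⟩ := Pool.Agent.helper7.SC.exists_avoid S hSc hS0
  exact ⟨fun i l => x (i, l), fun P hP => hx P hP⟩

private lemma two_cd_map {n : ℕ} (m : Fin n → ℕ) :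
    2 * cd (Finset.univ.val.map m) = ∑ l, m l * (m l + 1) := by
  have h1 : cd (Finset.univ.val.map m) = ∑ l, kk (m l) := by
    rw [cd, Multiset.map_map]
    rfl
  rw [h1, Finset.mul_sum]
  refine Finset.sum_congr rfl fun i _ => ?_
  rw [two_mul_kk]
  ring

private lemma S1_map {n : ℕ} (m : Fin n → ℕ) :
    S1 (Finset.univ.val.map m) = ∑ l, (m l + 1) := by
  rw [S1, Multiset.map_map]
  rfl

private lemma S2_map {n : ℕ} (m : Fin n → ℕ) :
    S2 (Finset.univ.val.map m) = ∑ l, (m l + 1) ^ 2 := by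
  rw [S2, Multiset.map_map]
  rfl

theorem card_le {d : ℕ} {gs : Multiset ℕ} (h : E d gs) : (d + 2).choose 2 ≤ cd gs := by
  obtain ⟨m, hm⟩ := exists_fin gs
  generalize Multiset.card gs = n at m hm
  subst hm
  obtain ⟨Q, hQ0, hQ⟩ := h.generic
  obtain ⟨T, hT, hT0, hTp⟩ := Pool.Agent.helper7.SC.wxu 1 n one_pos
  obtain ⟨q, hq⟩ := exq (T ∪ {Q}) (hT.union (Set.countable_singleton _)) (by
    rintro P (hP | hP)
    · exact hT0 P hP
    · rw [Set.mem_singleton_iff] at hP
      rw [hP]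
      exact hQ0)
  obtain ⟨hinj, -⟩ := hTp q (fun P hP => hq P (Or.inl hP))
  have hemp := hQ q (hq Q (Or.inr rfl))
  have h1 := Pool.Agent.helper1.KV.finrank_inf_ker (Pool.Agent.helper1.KV.Vt d)
    (Pool.Agent.helper1.KV.jet q m)
  have h2 : (Pool.Agent.helper1.KV.Vt d ⊓ LinearMap.ker (Pool.Agent.helper1.KV.jet q m) :
      Submodule ℂ R2) = ⊥ := by
    rw [Submodule.eq_bot_iff]
    intro F hF
    rw [Submodule.mem_inf, Pool.Agent.helper1.KV.mem_Vt, Pool.Agent.helper1.KV.ker_jet hinj,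
      Submodule.restrictScalars_mem, Pool.Agent.helper1.KV.mem_Jd hinj] at hF
    exact hemp F hF.1 hF.2
  rw [h2, finrank_bot, zero_add] at h1
  have h3 : Module.finrank ℂ ((Pool.Agent.helper1.KV.Vt d).map (Pool.Agent.helper1.KV.jet q m)) ≤
      Module.finrank ℂ (Pool.Agent.helper1.KV.Jet q m) := Submodule.finrank_le _
  have h4 := Pool.Agent.helper1.KV.finrank_Vt d
  have h5 := Pool.Agent.helper1.KV.finrank_Jet q m
  have h6 := two_choose d
  have h7 := two_cd_map m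
  omega

private lemma nineReg_nef {d : ℕ} (T : Fin 9 → ℕ) (hn : ∑ i, T i + 1 ≤ 3 * d)
    (hV : 45 * ∑ i, (T i + 1) ^ 2 ≤ 5 * (∑ i, (T i + 1)) ^ 2 + 4 * ∑ i, (T i + 1)) :
    NefP (d + 3) (fun i => T i + 1) := by
  have hA : ∑ i, (T i + 1) = ∑ i, T i + 9 := by
    rw [Finset.sum_add_distrib]
    simp
  apply nefP_of
  intro e μ _ hxu hme viol
  have hcard : Multiset.card (Finset.univ.val.map μ) = 9 := by simp
  have hsum : (Finset.univ.val.map μ).sum = ∑ i, μ i := rfl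
  by_cases h1 : 3 * e < ∑ i, μ i
  · exact nineE hcard (Or.inl (by rw [hsum]; exact h1))
  by_cases h2 : ∑ i, μ i = 3 * e
  · by_cases h3 : ∀ i j, μ i = μ j
    · exfalso
      have h4 := nineNum (fun i => T i + 1) μ (d + 3) e (3 * d - ∑ i, T i) (by
        show 3 * (d + 3) = ∑ i, (T i + 1) + (3 * d - ∑ i, T i)
        omega) (by omega) (by
        show 45 * ∑ i, (T i + 1) ^ 2 ≤ 5 * (∑ i, (T i + 1)) ^ 2 +
          4 * (∑ i, (T i + 1)) * (3 * d - ∑ i, T i)
        refine hV.trans (Nat.add_le_add_left ?_ _)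
        exact Nat.le_mul_of_pos_right _ (by omega)) (by omega) (fun _ => h3) hxu hme
      exact absurd viol (not_lt.mpr h4)
    · push Not at h3
      obtain ⟨i, j, hij⟩ := h3
      refine nineE hcard (Or.inr ⟨by rw [hsum]; exact h2.symm, μ i, ?_, μ j, ?_, hij⟩)
      · exact Multiset.mem_map_of_mem _ (Finset.mem_univ_val _)
      · exact Multiset.mem_map_of_mem _ (Finset.mem_univ_val _)
  · exfalso
    have h4 := nineNum (fun i => T i + 1) μ (d + 3) e (3 * d - ∑ i, T i) (by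
      show 3 * (d + 3) = ∑ i, (T i + 1) + (3 * d - ∑ i, T i)
      omega) (by omega) (by
      show 45 * ∑ i, (T i + 1) ^ 2 ≤ 5 * (∑ i, (T i + 1)) ^ 2 +
        4 * (∑ i, (T i + 1)) * (3 * d - ∑ i, T i)
      refine hV.trans (Nat.add_le_add_left ?_ _)
      exact Nat.le_mul_of_pos_right _ (by omega)) (by omega) (fun h => absurd h h2) hxu hme
    exact absurd viol (not_lt.mpr h4)

theorem nineReg {d : ℕ} {gs : Multiset ℕ} (hc : Multiset.card gs = 9) (hn : gs.sum + 1 ≤ 3 * d)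
    (hV : 45 * S2 gs ≤ 5 * S1 gs ^ 2 + 4 * S1 gs) :
    ∃ ρ : ℕ, E d (gs + Multiset.replicate ρ 1) ∧ cd gs + ρ = (d + 2).choose 2 := by
  classical
  obtain ⟨T, hT⟩ : ∃ T : Fin 9 → ℕ, Finset.univ.val.map T = gs := by
    have h := exists_fin gs
    rw [hc] at h
    exact h
  subst hT
  have hn' : ∑ i, T i + 1 ≤ 3 * d := hn
  rw [S1_map, S2_map] at hV
  have hA : ∑ i, (T i + 1) = ∑ i, T i + 9 := by
    rw [Finset.sum_add_distrib]
    simp
  obtain ⟨S, hSc, hS0, hSq⟩ := nineReg_nef T hn' hV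
  obtain ⟨q, hq⟩ := exq S hSc hS0
  obtain ⟨hinj, hnef⟩ := hSq q hq
  have hbig : ∑ l, (T l + 1) ^ 2 < (d + 3) ^ 2 := by
    generalize ∑ i, (T i + 1) ^ 2 = s2 at hV
    rw [hA] at hV
    generalize ∑ i, T i = s at hV hn'
    nlinarith
  have hex2 : ∑ l, (T l + 1) ^ 2 + ∑ l, (T l + 1) < (d + 5) * (d + 4) := by
    generalize ∑ i, (T i + 1) ^ 2 = s2 at hV
    rw [hA] at hV ⊢
    generalize ∑ i, T i = s at hV hn'
    nlinarith
  have hex : ∑ l, (T l + 2).choose 2 < (d + 5).choose 2 := by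
    have h1 : 2 * ∑ l, (T l + 2).choose 2 = ∑ l, (T l + 1) ^ 2 + ∑ l, (T l + 1) := by
      rw [Finset.mul_sum, ← Finset.sum_add_distrib]
      refine Finset.sum_congr rfl fun i _ => ?_
      rw [two_choose]
      ring
    have h2 : 2 * (d + 5).choose 2 = (d + 4) * (d + 5) := two_choose (d + 3)
    have h3 : (d + 5) * (d + 4) = (d + 4) * (d + 5) := mul_comm _ _
    omega
  have hfin := Pool.Agent.helper1.KV.kv_finrank hinj hnef hbig hex
  have h6 := two_choose d
  have h7 := two_cd_map T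
  have hgood : Good ℂ (tri d) (Finset.univ.val.map T) (cd (Finset.univ.val.map T)) := by
    refine good_of_finrank (p := q) (Pool.Agent.helper1.KV.Vt d ⊓
      (Pool.Agent.helper1.KV.Jd q T).restrictScalars ℂ) ?_ ?_
    · intro F
      rw [Submodule.mem_inf, Pool.Agent.helper1.KV.mem_Vt, Submodule.restrictScalars_mem,
        Pool.Agent.helper1.KV.mem_Jd hinj]
    · rw [card_tri]
      omega
  refine ⟨(d + 2).choose 2 - cd (Finset.univ.val.map T), E_ones_of_good hgood ?_, by omega⟩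
  rw [card_tri]
  omega

end Pool.Agent.helper25.ST
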