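import Pool.Agent.helper25.ST.Defs

set_option autoImplicit false

/-!
# Module Bucket: a multiset without nine nearly equal small elements

`near`: if nine numbers `a = μ + 1` all have the same value `j = Nat.sqrt (25 a)` then
`45 ∑ a ^ 2 ≤ 5 (∑ a) ^ 2 + 4 ∑ a`: for two of them `25 (a - b) ≤ 2 j` and `25 a ≥ j ^ 2`, so
`5 (a - b) ^ 2 ≤ 20 j ^ 2 / 625 ≤ min a`; `9 ∑ a ^ 2 - (∑ a) ^ 2 = ∑_(i<j) (a i - a j) ^ 2` (36 pairs)
`≤ 36 min a / 5 ≤ (4 / 5) ∑ a`.
`bucket`: elements with `3 (μ + 1) > W` contribute at most `3 (μ + 1) ^ 2` to `W * S1`. The others: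
for each `j` at most 8 elements (otherwise nine of them contradict `h`), `j ≤ Nat.sqrt (25 W / 3) ≤
Nat.sqrt (9 W)`, so there are at most `8 (Nat.sqrt (9 W) + 1)` of them, each with `W (μ + 1) ≤ W ^ 2 / 3`.
-/

namespace Pool.Agent.helper25.ST

private lemma bk_shift {gs : Multiset ℕ} {b C : ℕ}
    (h : ∀ μ ∈ gs, b ≤ μ + 1 ∧ μ + 1 ≤ b + C) :
    ∃ t q : ℕ, S1 gs = Multiset.card gs * b + t ∧
      S2 gs = Multiset.card gs * b ^ 2 + 2 * b * t + q ∧ q ≤ C * t := by
  induction gs using Multiset.induction_on with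
  | empty => exact ⟨0, 0, by simp [S1_zero], by simp [S2_zero], by simp⟩
  | cons m ms ih =>
    obtain ⟨t, q, h1, h2, h3⟩ := ih (fun μ hμ => h μ (Multiset.mem_cons_of_mem hμ))
    obtain ⟨h4, h5⟩ := h m (Multiset.mem_cons_self m ms)
    obtain ⟨c, hc⟩ := Nat.exists_eq_add_of_le h4
    have hcC : c ≤ C := by omega
    refine ⟨t + c, q + c ^ 2, ?_, ?_, ?_⟩
    · rw [S1_cons, h1, hc, Multiset.card_cons]
      ring
    · rw [S2_cons, h2, hc, Multiset.card_cons]
      ring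
    · have : c ^ 2 ≤ C * c := by
        rw [pow_two]
        exact Nat.mul_le_mul_right c hcC
      nlinarith

theorem near {gs : Multiset ℕ} (hc : Multiset.card gs = 9) (j : ℕ)
    (h : ∀ μ ∈ gs, Nat.sqrt (25 * (μ + 1)) = j) : 45 * S2 gs ≤ 5 * S1 gs ^ 2 + 4 * S1 gs := by
  set b := (j ^ 2 + 24) / 25 with hb
  set C := (2 * j) / 25 with hC
  have hb1 : j ^ 2 ≤ 25 * b := by omega
  have hC1 : 25 * C ≤ 2 * j := by omega
  have hall : ∀ μ ∈ gs, b ≤ μ + 1 ∧ μ + 1 ≤ b + C := by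
    intro μ hμ
    have h1 := h μ hμ
    have h2 : j * j ≤ 25 * (μ + 1) := by
      rw [← h1]
      exact Nat.sqrt_le _
    have h3 : 25 * (μ + 1) < (j + 1) * (j + 1) := by
      rw [← h1]
      exact Nat.lt_succ_sqrt _
    have h4 : (j + 1) * (j + 1) = j ^ 2 + 2 * j + 1 := by ring
    have h5 : j * j = j ^ 2 := by ring
    rw [h4] at h3
    rw [h5] at h2
    constructor
    · omega
    · omega
  obtain ⟨t, q, h1, h2, h3⟩ := bk_shift hall
  rw [hc] at h1 h2
  rw [h1, h2]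
  have h6 : 25 * C ^ 2 ≤ 4 * b := by
    have h7 : (25 * C) ^ 2 ≤ (2 * j) ^ 2 := Nat.pow_le_pow_left hC1 2
    nlinarith
  zify at h3 h6 ⊢
  nlinarith [sq_nonneg (2 * (t : ℤ) - 9 * C)]

private lemma bk_big {ms : Multiset ℕ} {W : ℕ} (h : ∀ μ ∈ ms, W ≤ 3 * (μ + 1)) :
    W * S1 ms ≤ 3 * S2 ms := by
  induction ms using Multiset.induction_on with
  | empty => simp [S1_zero]
  | cons m ms ih =>
    have h1 := ih (fun μ hμ => h μ (Multiset.mem_cons_of_mem hμ))
    have h2 := h m (Multiset.mem_cons_self m ms)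
    rw [S1_cons, S2_cons]
    nlinarith [Nat.mul_le_mul_right (m + 1) h2]

private lemma bk_small {ms : Multiset ℕ} {W : ℕ} (h : ∀ μ ∈ ms, 3 * (μ + 1) ≤ W) :
    3 * (W * S1 ms) ≤ Multiset.card ms * W ^ 2 := by
  induction ms using Multiset.induction_on with
  | empty => simp [S1_zero]
  | cons m ms ih =>
    have h1 := ih (fun μ hμ => h μ (Multiset.mem_cons_of_mem hμ))
    have h2 := h m (Multiset.mem_cons_self m ms)
    rw [S1_cons, Multiset.card_cons]
    nlinarith [Nat.mul_le_mul_left W h2]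

theorem bucket {ms : Multiset ℕ} {W : ℕ}
    (h : ∀ gs ≤ ms, Multiset.card gs = 9 → (∀ μ ∈ gs, 3 * (μ + 1) ≤ W) →
      ¬ 45 * S2 gs ≤ 5 * S1 gs ^ 2 + 4 * S1 gs) :
    W * S1 ms ≤ 3 * S2 ms + 3 * (Nat.sqrt (9 * W) + 1) * W ^ 2 := by
  classical
  set sm := ms.filter (fun μ => 3 * (μ + 1) ≤ W) with hsm
  set bg := ms.filter (fun μ => ¬ 3 * (μ + 1) ≤ W) with hbg
  have hadd : sm + bg = ms := Multiset.filter_add_not _ _
  have hs : ∀ μ ∈ sm, 3 * (μ + 1) ≤ W := fun μ hμ => (Multiset.mem_filter.mp hμ).2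
  have hbgW : ∀ μ ∈ bg, W ≤ 3 * (μ + 1) := fun μ hμ => by
    have := (Multiset.mem_filter.mp hμ).2
    omega
  have hsle : sm ≤ ms := Multiset.filter_le _ _
  set N := Nat.sqrt (9 * W) with hN
  have hcard : Multiset.card sm ≤ 8 * (N + 1) := by
    have h1 : Multiset.card sm =
        Multiset.card (sm.map fun μ => Nat.sqrt (25 * (μ + 1))) := by
      rw [Multiset.card_map]
    rw [h1, ← Multiset.toFinset_sum_count_eq]
    have hsub : (sm.map fun μ => Nat.sqrt (25 * (μ + 1))).toFinset ⊆ Finset.range (N + 1) := by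
      intro j hj
      rw [Multiset.mem_toFinset, Multiset.mem_map] at hj
      obtain ⟨μ, hμ, rfl⟩ := hj
      rw [Finset.mem_range, Nat.lt_succ_iff]
      apply Nat.sqrt_le_sqrt
      have := hs μ hμ
      omega
    have hle : ∀ j ∈ (sm.map fun μ => Nat.sqrt (25 * (μ + 1))).toFinset,
        (sm.map fun μ => Nat.sqrt (25 * (μ + 1))).count j ≤ 8 := by
      intro j _
      rw [Multiset.count_map]
      by_contra hcon
      push Not at hcon
      have hne : 0 < Multiset.card (Multiset.powersetCard 9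
          (Multiset.filter (fun b => j = Nat.sqrt (25 * (b + 1))) sm)) := by
        rw [Multiset.card_powersetCard]
        exact Nat.choose_pos (by omega)
      obtain ⟨gs, hgs⟩ := Multiset.card_pos_iff_exists_mem.mp hne
      rw [Multiset.mem_powersetCard] at hgs
      obtain ⟨hg1, hg2⟩ := hgs
      have hg3 : gs ≤ sm := hg1.trans (Multiset.filter_le _ _)
      refine h gs (hg3.trans hsle) hg2 (fun μ hμ => hs μ (Multiset.mem_of_le hg3 hμ)) ?_
      refine near hg2 j (fun μ hμ => ?_)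
      exact ((Multiset.mem_filter.mp (Multiset.mem_of_le hg1 hμ)).2).symm
    calc ∑ a ∈ (sm.map fun μ => Nat.sqrt (25 * (μ + 1))).toFinset,
          (sm.map fun μ => Nat.sqrt (25 * (μ + 1))).count a
        ≤ ∑ a ∈ (sm.map fun μ => Nat.sqrt (25 * (μ + 1))).toFinset, 8 := Finset.sum_le_sum hle
      _ = (sm.map fun μ => Nat.sqrt (25 * (μ + 1))).toFinset.card * 8 := by
          rw [Finset.sum_const, smul_eq_mul]
      _ ≤ (Finset.range (N + 1)).card * 8 :=
          Nat.mul_le_mul_right 8 (Finset.card_le_card hsub)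
      _ = 8 * (N + 1) := by rw [Finset.card_range, mul_comm]
  have h2 := bk_big hbgW
  have h3 := bk_small hs
  have h4 : S1 ms = S1 sm + S1 bg := by rw [← S1_add, hadd]
  have h5 : S2 ms = S2 sm + S2 bg := by rw [← S2_add, hadd]
  have h6 : Multiset.card sm * W ^ 2 ≤ 8 * (N + 1) * W ^ 2 := Nat.mul_le_mul_right _ hcard
  rw [h4, h5]
  have h7 : 0 ≤ (N + 1) * W ^ 2 := Nat.zero_le _
  nlinarith

end Pool.Agent.helper25.ST
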