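import Pool.Agent.helper25.ST.Defs

set_option autoImplicit false

/-!
# Module Cub: restriction to the cuspidal cubic `Y = X ^ 3`

`cr F = F(X, X ^ 3)`. All statements are elementary:
`cub_dvd`: `F = ∑ c_n X ^ n0 Y ^ n1` and `Y - X ^ 3 ∣ Y ^ n1 - (X ^ 3) ^ n1`, so `F` is congruent to the
polynomial `F(X, X ^ 3) = 0` of `X`.
`cr_coeff`: the exponents of `X` in `cr F` are `n 0 + 3 n 1` with `n 0 + n 1 ≤ d`;
`n 0 + 3 n 1 = 3 d - 1` is impossible: `n 1 = d - k`, `n 0 ≤ k` gives `n 0 + 3 n 1 ≤ 3 d - 2 k`, so `k = 0`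
and `n 0 = 0`.
`cr_dvd`: `ptIdeal (cp t) = (X - t, Y - t ^ 3)` is mapped into the ideal `(X - t)`, as
`X - t ∣ X ^ 3 - t ^ 3`.
`mult_cub`: `cub` vanishes at `cp t`, but is not in the square of the ideal (`pderiv_mem`: the partial
derivative in `Y` is `1`).
-/

namespace Pool.Agent.helper25.ST

open MvPolynomial Pool.Agent.helper5.NBS Pool.Agent.helper89.Segre Pool.Agent.SH9

/-- the point `(t, t ^ 3)` -/
def cp (t : ℂ) : Fin 2 → ℂ := ![t, t ^ 3]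

/-- the cubic `Y - X ^ 3` -/
noncomputable def cub : R2 := X 1 - X 0 ^ 3

/-- the restriction to the cubic -/
noncomputable def cr : R2 →ₐ[ℂ] Polynomial ℂ := aeval ![Polynomial.X, Polynomial.X ^ 3]

lemma cp_injective : Function.Injective cp := by
  sorry

theorem cub_dvd {F : R2} (h : cr F = 0) : cub ∣ F := by
  sorry

theorem cr_natDegree {F : R2} {d : ℕ} (h : wdeg 1 F ≤ d) : (cr F).natDegree ≤ 3 * d := by
  sorry

theorem cr_coeff {F : R2} {d : ℕ} (h : wdeg 1 F ≤ d) (hd : 1 ≤ d) :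
    (cr F).coeff (3 * d - 1) = 0 := by
  sorry

theorem cr_dvd {F : R2} {t : ℂ} {k : ℕ} (h : F ∈ ptIdeal (cp t) ^ k) :
    (Polynomial.X - Polynomial.C t) ^ k ∣ cr F := by
  sorry

theorem cub_ne : cub ≠ 0 := by
  sorry

theorem wdeg_cub : wdeg 1 cub = 3 := by
  sorry

theorem mult_cub (t : ℂ) : mult (cp t) cub = 1 := by
  sorry

/-- `f = cr F` is divisible by `∏ (X - t i) ^ ν i` of degree `∑ ν` (coprime factors). If `∑ ν > 3 d`
then `f = 0`. If `∑ ν = 3 d`, then `f = c ∏ (X - t i) ^ ν i`, and the coefficient of `X ^ (3 d - 1)` is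
`- c ∑ ν i t i` (`Polynomial.nextCoeff`, or `Multiset.prod_X_sub_C_nextCoeff`); it is `0` by
`cr_coeff` (`d ≥ 1`, as `∑ ν i t i ≠ 0` implies `∑ ν > 0`). -/
theorem cr_zero {F : R2} {d : ℕ} {ν : Fin 9 → ℕ} {t : Fin 9 → ℂ} (ht : Function.Injective t)
    (hF : wdeg 1 F ≤ d) (hm : ∀ i, F ∈ ptIdeal (cp (t i)) ^ ν i)
    (h : 3 * d < ∑ i, ν i ∨ (3 * d = ∑ i, ν i ∧ ∑ i, (ν i : ℂ) * t i ≠ 0)) : cr F = 0 := by
  sorry

/-- `F = cub * G` by `cub_dvd`; `wdeg_mul`, `wdeg_cub`, `mult_mul`, `mult_cub`. -/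
theorem cub_step {F : R2} {d : ℕ} {ν : Fin 9 → ℕ} {t : Fin 9 → ℂ} (hF0 : F ≠ 0)
    (hF : wdeg 1 F ≤ d) (hm : ∀ i, F ∈ ptIdeal (cp (t i)) ^ ν i) (hcr : cr F = 0) :
    3 ≤ d ∧ ∃ G : R2, G ≠ 0 ∧ F = cub * G ∧ wdeg 1 G ≤ d - 3 ∧
      ∀ i, G ∈ ptIdeal (cp (t i)) ^ (ν i - 1) := by
  sorry

end Pool.Agent.helper25.ST
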