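import Pool.Agent.helper25.ST.FinR
import Pool.Agent.helper25.ST.FinN

set_option autoImplicit false

/-!
# The final configuration
-/

namespace Pool.Agent.helper25.ST

open MvPolynomial Pool.Agent.helper5.NBS Pool.Agent.helper89.Segre Pool.Agent.SH9

theorem fin {d W Δ A w s : ℕ} {ms : Multiset ℕ} (hW : 1 ≤ W) (hNef : NefT d W Δ)
    (hms : ∀ μ ∈ ms, μ + 1 ≤ W) (hA : S1 ms ≤ A) (hw : 3 * A + 3 * Δ + 2 * d + 1 ≤ w)
    (ht : (d + 2).choose 2 ≤ cd ms + s)
    (h : w ≤ s ∨ (d + 2).choose 2 + w ≤ cd ms + s) :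
    E d (ms + Multiset.replicate s 1) := by
  rcases Nat.lt_or_ge ((d + 2).choose 2) (cd ms + S1 ms + Δ) with h1 | h1
  · exact finN hW hNef hms hA hw h1 h
  · exact finR hW hNef hms h1 ht

end Pool.Agent.helper25.ST
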