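import Pool.Agent.helper25.ST.Defs
import Pool.Agent.helper1.KV.Final

set_option autoImplicit false

/-!
# Module FinR: the final configuration, case R (regular)

`ms` the big points, `s` simple points, `C = C(d+2,2)`. If `cd ms + S1 ms + Δ ≤ C` then the big
points impose independent conditions, by `kv_finrank` at a very general configuration `q`
(`exists_avoid` in helper7.SC) of the points `ms = univ.val.map T` (`exists_fin`), weights
`a = T + 1 ≤ W`, `D = d + 3`: with `2 cd + S1 = S2` (`two_cd`) and `2 C = (d+1)(d+2)` (`two_choose`) the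
condition `S2 + Δ ≤ (d + 3) ^ 2` of `NefT` follows from `2 cd + 2 S1 + 2 Δ ≤ 2 C`
(`(d+1)(d+2) ≤ (d+3) ^ 2`); `hbig` similarly (strict); `hex`: `2 (d+5).choose 2 = (d+4)(d+5)`,
`2 (T+2).choose 2 = (T+1)(T+2)`, sum `= S2 + S1`. Then `good_of_finrank` (`r = cd ms`) and
`E_ones_of_good` (`C - cd ms ≤ s`).
-/

namespace Pool.Agent.helper25.ST

open MvPolynomial Pool.Agent.helper5.NBS Pool.Agent.helper89.Segre Pool.Agent.SH9

private lemma sum_sq_fin {n : ℕ} (m : Fin n → ℕ) :
    ∑ i, (m i + 1) ^ 2 = S2 (Finset.univ.val.map m) := by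
  rw [S2, Multiset.map_map]
  rfl

private lemma sum_one_fin {n : ℕ} (m : Fin n → ℕ) :
    ∑ i, (m i + 1) = S1 (Finset.univ.val.map m) := by
  rw [S1, Multiset.map_map]
  rfl

private lemma sum_kk_fin {n : ℕ} (m : Fin n → ℕ) :
    ∑ i, (m i + 1).choose 2 = cd (Finset.univ.val.map m) := by
  rw [cd, Multiset.map_map]
  rfl

private lemma sum_choose_fin {n : ℕ} (m : Fin n → ℕ) :
    2 * ∑ i, (m i + 2).choose 2 = S2 (Finset.univ.val.map m) + S1 (Finset.univ.val.map m) := by
  rw [← sum_sq_fin, ← sum_one_fin, Finset.mul_sum, ← Finset.sum_add_distrib]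
  apply Finset.sum_congr rfl
  intro i _
  rw [two_choose (m i)]
  ring

theorem finR {d W Δ s : ℕ} {ms : Multiset ℕ} (hW : 1 ≤ W) (hNef : NefT d W Δ)
    (hms : ∀ μ ∈ ms, μ + 1 ≤ W) (hR : cd ms + S1 ms + Δ ≤ (d + 2).choose 2)
    (ht : (d + 2).choose 2 ≤ cd ms + s) : E d (ms + Multiset.replicate s 1) := by
  classical
  obtain ⟨n, m, hm⟩ : ∃ n : ℕ, ∃ m : Fin n → ℕ, Finset.univ.val.map m = ms :=
    ⟨_, exists_fin ms⟩
  subst hm
  have e1 := two_cd (Finset.univ.val.map m)
  have e2 := two_choose d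
  have e3 := two_choose (d + 3)
  have s1 := sum_sq_fin m
  have s2 := sum_choose_fin m
  have s3 := sum_kk_fin m
  have hle : S2 (Finset.univ.val.map m) + Δ ≤ (d + 1) * (d + 2) := by omega
  have hlt : (d + 1) * (d + 2) < (d + 3) ^ 2 := by nlinarith
  have hlt' : (d + 1) * (d + 2) < (d + 3 + 1) * (d + 3 + 2) := by nlinarith
  have hw : ∀ i, m i + 1 ≤ W := by
    intro i
    apply hms
    exact Multiset.mem_map_of_mem m (Finset.mem_univ_val i)
  have hsq : ∑ i, (m i + 1) ^ 2 + Δ ≤ (d + 3) ^ 2 := by omega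
  obtain ⟨S, hSc, hS0, hSq⟩ := hNef n (fun i => m i + 1) hw (d + 3) (by omega) hsq
  obtain ⟨x, hx⟩ := Pool.Agent.helper7.SC.exists_avoid S hSc hS0
  let q : Fin n → Fin 2 → ℂ := fun i l => x (i, l)
  have hq : ∀ Q ∈ S, evP q Q ≠ 0 := fun Q hQ => hx Q hQ
  obtain ⟨hinj, hnef⟩ := hSq q hq
  have hbig : ∑ l, (m l + 1) ^ 2 < (d + 3) ^ 2 := by omega
  have hex : ∑ l, (m l + 2).choose 2 < (d + 5).choose 2 := by
    have h5 : (d + 5).choose 2 = (d + 3 + 2).choose 2 := rfl
    rw [h5]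
    omega
  have hfin := Pool.Agent.helper1.KV.kv_finrank hinj hnef hbig hex
  have hgood : Good ℂ (tri d) (Finset.univ.val.map m) (cd (Finset.univ.val.map m)) := by
    refine good_of_finrank (p := q) (Pool.Agent.helper1.KV.Vt d ⊓
      (Pool.Agent.helper1.KV.Jd q m).restrictScalars ℂ) ?_ ?_
    · intro F
      rw [Submodule.mem_inf, Pool.Agent.helper1.KV.mem_Vt, Submodule.restrictScalars_mem,
        Pool.Agent.helper1.KV.mem_Jd hinj]
    · rw [card_tri]
      have h1 : ∀ k : ℕ, 2 * (k + 1).choose 2 = k * (k + 1) := by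
        intro k
        have h := two_mul_kk k
        rw [kk] at h
        rw [h]
        ring
      have h2 : 2 * ∑ i, (m i + 1).choose 2 = ∑ i, m i * (m i + 1) := by
        rw [Finset.mul_sum]
        exact Finset.sum_congr rfl fun i _ => h1 _
      have h5 : (d + 1) * (d + 2) = (d + 1) * (d + 1 + 1) := rfl
      omega
  refine E_ones_of_good hgood ?_
  rw [card_tri]
  exact ht

end Pool.Agent.helper25.ST
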