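import Pool.Agent.helper25.ST.Nef12
import Pool.Agent.helper25.ST.NumMain
import Pool.Agent.helper25.ST.Split

set_option autoImplicit false

/-!
# Module MainR: the regular half

`E d (ms + replicate v 1)`: drop the zeros of `ms`, the ones are simple points, `a` = the values `≥ 2`
(`split`, module Split, proved);
`proc` for `a`, `s + v` (first alternative of `h`) with `nef2`, the numbers of `numMain`,
`S2 a ≤ (9/2) cd a ≤ (9/4)(d+1)(d+2) ≤ 5 d ^ 2 = Φ` (`(μ+1)^2 ≤ (9/4) μ (μ+1)` for `μ ≥ 2`), the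
number `s + v ≥ w` of simple points. Then `E.add` for the zeros.
-/

namespace Pool.Agent.helper25.ST

open MvPolynomial Pool.Agent.helper5.NBS Pool.Agent.helper89.Segre Pool.Agent.SH9

theorem mainR {d U W v : ℕ} {ms : Multiset ℕ} (hU : 10 ^ 3 ≤ U) (hUW : U ≤ W)
    (hd : 10 ^ 7 * W ≤ d) (hms : ∀ μ ∈ ms, μ + 1 ≤ W) (hv : cd ms + v = (d + 2).choose 2)
    (h1 : 100 * d ^ 2 ≤ v * U) (h2 : 10 ^ 6 * U ^ 3 ≤ v ^ 2) (h3 : 10 ^ 25 * W ^ 6 ≤ v * d ^ 4) :
    E d (ms + Multiset.replicate v 1) := by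
  obtain ⟨a, s, z, e1, e2, e3, e4, -, e6, -⟩ := split ms
  obtain ⟨A, Δ, w, c1, c2, c3, c4, -⟩ := numMain hU hUW hd h1 h2 h3
  have hU1 : 1 ≤ U := le_trans (by norm_num) hU
  have hW1 : 1 ≤ W := hU1.trans hUW
  have ht := two_choose d
  have hd1 : 10 ^ 10 ≤ d := by
    have : 10 ^ 7 * 10 ^ 3 ≤ 10 ^ 7 * W := Nat.mul_le_mul_left _ (hU.trans hUW)
    calc 10 ^ 10 = 10 ^ 7 * 10 ^ 3 := by norm_num
      _ ≤ _ := this
      _ ≤ _ := hd
  have hΦ : S2 a ≤ 5 * d ^ 2 := by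
    have h5 : 2 * cd a ≤ (d + 1) * (d + 2) := by
      rw [← ht, ← hv, e4]
      omega
    have h6 : 4 * S2 a ≤ 9 * ((d + 1) * (d + 2)) := by
      have : 4 * S2 a ≤ 9 * (2 * cd a) := by omega
      exact this.trans (Nat.mul_le_mul_left 9 h5)
    nlinarith
  have hP := proc (d := d) (W := W) (Δ := Δ) (Φ := 5 * d ^ 2) (A := A) (w := w) hU1
    hUW (nef2 hW1 hd c1) c2 c3 a (s + v) (fun μ hμ => ⟨e2 μ hμ, hms μ (Multiset.mem_of_le e3 hμ)⟩) hΦ
    (by rw [← hv, e4, add_assoc]) (Or.inl (c4.trans (Nat.le_add_left v s)))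
  have hQ := hP.add (Multiset.replicate z 0)
  rw [e1]
  rw [Multiset.replicate_add] at hQ
  have he : a + Multiset.replicate s 1 + Multiset.replicate z 0 + Multiset.replicate v 1 =
      a + (Multiset.replicate s 1 + Multiset.replicate v 1) + Multiset.replicate z 0 := by
    abel
  rw [he]
  exact hQ

end Pool.Agent.helper25.ST
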