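import Mathlib

set_option autoImplicit false

/-!
# Module NumUp1: the numerical inequalities for nefness of level 1 (level 2 is module NumUp2)

Let `ρ = D / M`, `y = e M / D = e / ρ` (reals), so `y ≥ 6 / 7` (`hy`). Choose `W = ⌈900 y⌉`
(`900 y ≤ W ≤ 900 y + 1 ≤ 902 y`), `Φ = ⌈(9 / 4) ∑ μ ^ 2⌉ ≤ 5 e ^ 2` hence `Φ = 5 * e ^ 2`, and
`A = (3 Φ + 3 (√(9 W) + 1) W ^ 2) / W + 1 ≤ 15 e ^ 2 / W + 12 W ^ (3/2) + 1` (`W ≥ 1`),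
`w = 3 A + 3 Δ' + 2 e + 1`. From `hmax`: `∑ μ ≥ ∑ μ ^ 2 / max μ > e ^ 2 * 6 D / (13 e M) = (6 / 13) e ρ`.
Needed: `e ^ 2 + 3 e + 2 + 2 w ≤ ∑ μ ^ 2 + ∑ μ`, where `∑ μ ^ 2 ≥ e ^ 2 + 1`, so
`3 e + 1 + 2 w ≤ (6 / 13) e ρ` suffices (`6 / 13 > .46`).
`2 w ≤ 90 e ^ 2 / W + 72 W ^ (3/2) + 6 + 6 Δ' + 4 e + 2`; `90 e ^ 2 / W ≤ e ρ / 10`.
Level 1: `Δ' = 2 W ^ 2`, `72 W ^ (3/2) + 12 W ^ 2 ≤ 84 W ^ 2 ≤ 84 * 902 ^ 2 * e ^ 2 / ρ ^ 2 ≤ e ρ / 5` if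
`e ≤ ρ ^ 3 / (3.5 * 10 ^ 8)`; `hΔ` and `hv` (`6 e Δ < 7 M D`, `10 ^ 9 M ^ 4 ≤ Δ D ^ 2`) give
`e ≤ (7 / 6) ρ ^ 3 / 10 ^ 9`. Rest `7 e + 9 ≤ 16 e ≤ e ρ / 100`.
Level 2: `Δ' = 10 ^ 9 W ^ 4 / e ^ 2 + 1`, `6 Δ' ≤ 6 * 10 ^ 9 * 902 ^ 4 * e ^ 2 / ρ ^ 4 + 6`,
`72 W ^ (3/2) ≤ 72 * 902 ^ (3/2) * (e / ρ) ^ (3/2)`; both `≤ e ρ / 10` if `e ≤ ρ ^ 5 / (4 * 10 ^ 22)`; `hv`
gives `e ≤ (7 / 6) ρ ^ 5 / 10 ^ 23`.
`10 W ≤ e`, `10 ^ 4 W ≤ e` from `e / W ≥ ρ / 902`.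
-/

namespace Pool.Agent.helper25.ST

/-- level 1 -/
theorem numUp1 {r : ℕ} (μ : Fin r → ℕ) (M D Δ e : ℕ) (h1 : 1 ≤ M) (hD : 10 ^ 4 * M ≤ D)
    (hΔ : 10 ^ 9 * M ^ 4 ≤ Δ * D ^ 2) (hmax : ∀ i, 6 * (μ i * D) ≤ 13 * (e * M))
    (hv : 6 * (e * Δ) < 7 * (M * D)) (hsq : e ^ 2 < ∑ i, μ i ^ 2) (hy : 6 * D ≤ 7 * (e * M))
    (hsq' : ∑ i, μ i ^ 2 ≤ 2 * e ^ 2) :
    ∃ W Φ A w : ℕ, 1 ≤ W ∧ 10 * W ≤ e ∧ (∀ i, μ i + 1 ≤ W) ∧ 9 * ∑ i, μ i ^ 2 ≤ 4 * Φ ∧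
      3 * Φ + 3 * (Nat.sqrt (9 * W) + 1) * W ^ 2 ≤ W * A ∧
      3 * A + 3 * (2 * W ^ 2) + 2 * e + 1 ≤ w ∧
      (e + 1) * (e + 2) + 2 * w ≤ ∑ i, μ i ^ 2 + ∑ i, μ i := by
  have hDp : 0 < D := by omega
  have hep : 0 < e := by
    rcases Nat.eq_zero_or_pos e with h | h
    · subst h
      omega
    · exact h
  have rM : (1 : ℝ) ≤ M := by exact_mod_cast h1
  have rM0 : (0 : ℝ) < M := by linarith
  have rD0 : (0 : ℝ) < D := by exact_mod_cast hDp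
  have re1 : (1 : ℝ) ≤ e := by exact_mod_cast hep
  have re0 : (0 : ℝ) < e := by linarith
  obtain ⟨ρ, hρ⟩ : ∃ ρ : ℝ, ρ = D / M := ⟨_, rfl⟩
  have hDρ : (D : ℝ) = ρ * M := by rw [hρ]; field_simp
  have hρ4 : (10 : ℝ) ^ 4 ≤ ρ := by
    have h : (10 : ℝ) ^ 4 * M ≤ ρ * M := by rw [← hDρ]; exact_mod_cast hD
    exact le_of_mul_le_mul_right h rM0
  have hρ0 : (0 : ℝ) < ρ := by linarith [show (0 : ℝ) < 10 ^ 4 by norm_num]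
  -- `6 ρ ≤ 7 e`
  have hρe : 6 * ρ ≤ 7 * e := by
    have h : 6 * (ρ * M) ≤ 7 * (e * M) := by rw [← hDρ]; exact_mod_cast hy
    have h' : (6 * ρ) * M ≤ (7 * e) * M := by linarith
    exact le_of_mul_le_mul_right h' rM0
  -- `6 * 10 ^ 9 * e ≤ 7 * ρ ^ 3`
  have heρ : 6 * 10 ^ 9 * (e : ℝ) ≤ 7 * ρ ^ 3 := by
    have h2 : (10 : ℝ) ^ 9 * M ^ 4 ≤ Δ * D ^ 2 := by exact_mod_cast hΔ
    have h3 : (6 : ℝ) * (e * Δ) ≤ 7 * (M * D) := by exact_mod_cast hv.le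
    have h4 : (6 : ℝ) * e * (10 ^ 9 * M ^ 4) ≤ 6 * e * (Δ * D ^ 2) :=
      mul_le_mul_of_nonneg_left h2 (by positivity)
    have h5 : (6 : ℝ) * (e * Δ) * D ^ 2 ≤ 7 * (M * D) * D ^ 2 :=
      mul_le_mul_of_nonneg_right h3 (by positivity)
    have h6 : (6 * 10 ^ 9 * (e : ℝ)) * M ^ 4 ≤ (7 * ρ ^ 3) * M ^ 4 := by
      calc (6 * 10 ^ 9 * (e : ℝ)) * (M : ℝ) ^ 4 = 6 * (e : ℝ) * (10 ^ 9 * (M : ℝ) ^ 4) := by ring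
        _ ≤ 6 * (e : ℝ) * ((Δ : ℝ) * (D : ℝ) ^ 2) := h4
        _ = 6 * ((e : ℝ) * (Δ : ℝ)) * (D : ℝ) ^ 2 := by ring
        _ ≤ 7 * ((M : ℝ) * (D : ℝ)) * (D : ℝ) ^ 2 := h5
        _ = (7 * ρ ^ 3) * (M : ℝ) ^ 4 := by rw [hDρ]; ring
    exact le_of_mul_le_mul_right h6 (by positivity)
  -- the number `W`
  obtain ⟨W, hW⟩ : ∃ W : ℕ, W = 900 * e * M / D + 1 := ⟨_, rfl⟩
  have hW1 : 1 ≤ W := by
    rw [hW]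
    exact Nat.le_add_left 1 _
  have rW1 : (1 : ℝ) ≤ W := by exact_mod_cast hW1
  have rW0 : (0 : ℝ) < W := by linarith
  have hWlo : 900 * (e : ℝ) ≤ ρ * W := by
    have h : 900 * e * M < D * W := by rw [hW]; exact Nat.lt_mul_div_succ _ hDp
    have h2 : (900 : ℝ) * e * M ≤ D * W := by exact_mod_cast h.le
    rw [hDρ] at h2
    have h3 : (900 * (e : ℝ)) * M ≤ (ρ * W) * M := by linarith
    exact le_of_mul_le_mul_right h3 rM0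
  have hWhi : (W : ℝ) * ρ ≤ 902 * e := by
    have h : D * (900 * e * M / D) ≤ 900 * e * M := Nat.mul_div_le _ _
    have h2 : D * W ≤ 900 * e * M + D := by rw [hW, mul_add, mul_one]; omega
    have h3 : (D : ℝ) * W ≤ 900 * e * M + D := by exact_mod_cast h2
    rw [hDρ] at h3
    have h4 : ((W : ℝ) * ρ) * M ≤ (900 * e + ρ) * M := by linarith
    have h5 := le_of_mul_le_mul_right h4 rM0
    linarith
  -- `W ^ 2` is small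
  have hWsq : 84 * (W : ℝ) ^ 2 ≤ e * ρ / 5 := by
    have h : ((W : ℝ) * ρ) ^ 2 ≤ (902 * e) ^ 2 := pow_le_pow_left₀ (by positivity) hWhi 2
    have h2 : (84 * (W : ℝ) ^ 2) * ρ ^ 2 ≤ (e * ρ / 5) * ρ ^ 2 := by
      have h3 : (e : ℝ) * (6 * 10 ^ 9 * e) ≤ e * (7 * ρ ^ 3) :=
        mul_le_mul_of_nonneg_left heρ re0.le
      have h4 : (0 : ℝ) ≤ e * ρ ^ 3 := by positivity
      calc (84 * (W : ℝ) ^ 2) * ρ ^ 2 = 84 * ((W : ℝ) * ρ) ^ 2 := by ring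
        _ ≤ 84 * (902 * (e : ℝ)) ^ 2 := by linarith
        _ = ((84 * 902 ^ 2) / (6 * 10 ^ 9) : ℝ) * ((e : ℝ) * (6 * 10 ^ 9 * (e : ℝ))) := by ring
        _ ≤ ((84 * 902 ^ 2) / (6 * 10 ^ 9) : ℝ) * ((e : ℝ) * (7 * ρ ^ 3)) :=
          mul_le_mul_of_nonneg_left h3 (by norm_num)
        _ = ((84 * 902 ^ 2 * 7) / (6 * 10 ^ 9) : ℝ) * ((e : ℝ) * ρ ^ 3) := by ring
        _ ≤ (1 / 5 : ℝ) * ((e : ℝ) * ρ ^ 3) := mul_le_mul_of_nonneg_right (by norm_num) h4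
        _ = ((e : ℝ) * ρ / 5) * ρ ^ 2 := by ring
    exact le_of_mul_le_mul_right h2 (by positivity)
  -- `∑ μ` is large
  have hsum : 6 * ρ * e ≤ 13 * (∑ i, μ i : ℕ) := by
    have h : ∀ i, 6 * D * (μ i) ^ 2 ≤ 13 * (e * M) * μ i := by
      intro i
      have h2 := Nat.mul_le_mul_right (μ i) (hmax i)
      calc 6 * D * (μ i) ^ 2 = 6 * (μ i * D) * μ i := by ring
        _ ≤ 13 * (e * M) * μ i := h2
    have h2 : 6 * D * ∑ i, μ i ^ 2 ≤ 13 * (e * M) * ∑ i, μ i := by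
      rw [Finset.mul_sum, Finset.mul_sum]
      exact Finset.sum_le_sum fun i _ => h i
    have h3 : 6 * D * e ^ 2 ≤ 13 * (e * M) * ∑ i, μ i :=
      le_trans (Nat.mul_le_mul_left _ hsq.le) h2
    have h4 : (6 : ℝ) * D * e ^ 2 ≤ 13 * (e * M) * (∑ i, μ i : ℕ) := by exact_mod_cast h3
    rw [hDρ] at h4
    have h5 : (6 * ρ * e) * (M * e) ≤ (13 * ((∑ i, μ i : ℕ) : ℝ)) * (M * e) := by linarith
    exact le_of_mul_le_mul_right h5 (by positivity)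
  -- the number `A`
  obtain ⟨s, hs⟩ : ∃ s : ℕ, s = Nat.sqrt (9 * W) := ⟨_, rfl⟩
  have hs3 : s ≤ 3 * W := by
    rw [hs]
    have h : Nat.sqrt (9 * W) ≤ Nat.sqrt ((3 * W) * (3 * W)) := by
      apply Nat.sqrt_le_sqrt
      nlinarith
    rwa [Nat.sqrt_eq] at h
  obtain ⟨A, hA⟩ : ∃ A : ℕ, A = (3 * (5 * e ^ 2) + 3 * (s + 1) * W ^ 2) / W + 1 := ⟨_, rfl⟩
  have hA1 : 3 * (5 * e ^ 2) + 3 * (s + 1) * W ^ 2 ≤ W * A := by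
    rw [hA]
    exact (Nat.lt_mul_div_succ _ hW1).le
  have hA2 : (A : ℝ) ≤ e * ρ / 60 + 12 * W ^ 2 + 1 := by
    have h : W * A ≤ 3 * (5 * e ^ 2) + 3 * (s + 1) * W ^ 2 + W := by
      rw [hA, mul_add, mul_one]
      exact Nat.add_le_add_right (Nat.mul_div_le _ _) _
    have h2 : (W : ℝ) * A ≤ 3 * (5 * e ^ 2) + 3 * (s + 1) * W ^ 2 + W := by exact_mod_cast h
    have h3 : ((s : ℝ) + 1) ≤ 4 * W := by
      have : (s : ℝ) ≤ 3 * W := by exact_mod_cast hs3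
      linarith
    have h4 : ((s : ℝ) + 1) * W ^ 2 ≤ 4 * W * W ^ 2 :=
      mul_le_mul_of_nonneg_right h3 (by positivity)
    have h5 : (e : ℝ) * (900 * e) ≤ e * (ρ * W) := mul_le_mul_of_nonneg_left hWlo re0.le
    have h6 : (A : ℝ) * W ≤ (e * ρ / 60 + 12 * W ^ 2 + 1) * W := by nlinarith
    exact le_of_mul_le_mul_right h6 rW0
  refine ⟨W, 5 * e ^ 2, A, 3 * A + 3 * (2 * W ^ 2) + 2 * e + 1, hW1, ?_, ?_, ?_, ?_, le_rfl, ?_⟩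
  · -- `10 W ≤ e`
    have h : 10 * (W : ℝ) ≤ e := by
      have h2 : (W : ℝ) * 10 ^ 4 ≤ W * ρ := mul_le_mul_of_nonneg_left hρ4 rW0.le
      linarith
    exact_mod_cast h
  · intro i
    have h : (6 : ℝ) * (μ i * D) ≤ 13 * (e * M) := by exact_mod_cast hmax i
    rw [hDρ] at h
    have h2 : (6 * ((μ i : ℝ) * ρ)) * M ≤ (13 * e) * M := by linarith
    have h3 := le_of_mul_le_mul_right h2 rM0
    have h4 : ((μ i : ℝ) + 1) * ρ ≤ W * ρ := by linarith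
    have h5 := le_of_mul_le_mul_right h4 hρ0
    exact_mod_cast h5
  · omega
  · rw [← hs]
    exact hA1
  · have h : ((e : ℝ) + 1) * (e + 2) + 2 * (3 * A + 3 * (2 * W ^ 2) + 2 * e + 1) ≤
        e ^ 2 + 1 + (∑ i, μ i : ℕ) := by
      have h2 : (e : ℝ) * 10 ^ 4 ≤ e * ρ := mul_le_mul_of_nonneg_left hρ4 re0.le
      nlinarith
    have h2 : (e + 1) * (e + 2) + 2 * (3 * A + 3 * (2 * W ^ 2) + 2 * e + 1) ≤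
        e ^ 2 + 1 + ∑ i, μ i := by exact_mod_cast h
    omega

end Pool.Agent.helper25.ST
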