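import Mathlib

set_option autoImplicit false

/-!
# Module NumUp2: the numerical inequalities for nefness of level 2 (level 1 is module NumUp1)

Let `ρ = D / M`, `y = e M / D = e / ρ` (reals), so `y ≥ 6 / 7` (`hy`). Choose `W = ⌈900 y⌉`
(`900 y ≤ W ≤ 900 y + 1 ≤ 902 y`), `Φ = ⌈(9 / 4) ∑ μ ^ 2⌉ ≤ 5 e ^ 2` hence `Φ = 5 * e ^ 2`, and
`A = (3 Φ + 3 (√(9 W) + 1) W ^ 2) / W + 1 ≤ 15 e ^ 2 / W + 12 W ^ (3/2) + 1` (`W ≥ 1`),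
`w = 3 A + 3 Δ' + 2 e + 1`. From `hmax`: `∑ μ ≥ ∑ μ ^ 2 / max μ > e ^ 2 * 6 D / (13 e M) = (6 / 13) e ρ`.
Needed: `e ^ 2 + 3 e + 2 + 2 w ≤ ∑ μ ^ 2 + ∑ μ`, where `∑ μ ^ 2 ≥ e ^ 2 + 1`, so
`3 e + 1 + 2 w ≤ (6 / 13) e ρ` suffices (`6 / 13 > .46`).
`2 w ≤ 90 e ^ 2 / W + 72 W ^ (3/2) + 6 + 6 Δ' + 4 e + 2`; `90 e ^ 2 / W ≤ e ρ / 10`.
Level 1: `Δ' = 2 W ^ 2`, `72 W ^ (3/2) + 12 W ^ 2 ≤ 84 W ^ 2 ≤ 84 * 902 ^ 2 * e ^ 2 / ρ ^ 2 ≤ e ρ / 5` if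
`e ≤ ρ ^ 3 / (3.5 * 10 ^ 8)`; `hΔ` and `hv` (`6 e Δ < 7 M D`, `10 ^ 9 M ^ 4 ≤ Δ D ^ 2`) give
`e ≤ (7 / 6) ρ ^ 3 / 10 ^ 9`. Rest `7 e + 9 ≤ 16 e ≤ e ρ / 100`.
Level 2: `Δ' = 10 ^ 9 W ^ 4 / e ^ 2 + 1`, `6 Δ' ≤ 6 * 10 ^ 9 * 902 ^ 4 * e ^ 2 / ρ ^ 4 + 6`,
`72 W ^ (3/2) ≤ 72 * 902 ^ (3/2) * (e / ρ) ^ (3/2)`; both `≤ e ρ / 10` if `e ≤ ρ ^ 5 / (4 * 10 ^ 22)`; `hv`
gives `e ≤ (7 / 6) ρ ^ 5 / 10 ^ 23`.
`10 W ≤ e`, `10 ^ 4 W ≤ e` from `e / W ≥ ρ / 902`.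
-/

namespace Pool.Agent.helper25.ST

/-- level 2 -/
theorem numUp2 {r : ℕ} (μ : Fin r → ℕ) (M D Δ e : ℕ) (h1 : 1 ≤ M) (hD : 10 ^ 7 * M ≤ D)
    (hΔ : 10 ^ 23 * M ^ 6 ≤ Δ * D ^ 4) (hmax : ∀ i, 6 * (μ i * D) ≤ 13 * (e * M))
    (hv : 6 * (e * Δ) < 7 * (M * D)) (hsq : e ^ 2 < ∑ i, μ i ^ 2) (hy : 6 * D ≤ 7 * (e * M))
    (hsq' : ∑ i, μ i ^ 2 ≤ 2 * e ^ 2) :
    ∃ W Φ A w Δ' : ℕ, 1 ≤ W ∧ 10 ^ 4 * W ≤ e ∧ 10 ^ 9 * W ^ 4 ≤ Δ' * e ^ 2 ∧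
      (∀ i, μ i + 1 ≤ W) ∧ 9 * ∑ i, μ i ^ 2 ≤ 4 * Φ ∧
      3 * Φ + 3 * (Nat.sqrt (9 * W) + 1) * W ^ 2 ≤ W * A ∧
      3 * A + 3 * Δ' + 2 * e + 1 ≤ w ∧
      (e + 1) * (e + 2) + 2 * w ≤ ∑ i, μ i ^ 2 + ∑ i, μ i := by
  -- real variables
  have hMr : (0 : ℝ) < M := by exact_mod_cast h1
  have hDr0 : (10 : ℝ) ^ 7 * M ≤ D := by exact_mod_cast hD
  have hDr : (0 : ℝ) < D := lt_of_lt_of_le (by positivity) hDr0
  set ρ : ℝ := D / M with hρ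
  have hρpos : 0 < ρ := div_pos hDr hMr
  have hρ7 : (10 : ℝ) ^ 7 ≤ ρ := by rw [hρ, le_div_iff₀ hMr]; exact hDr0
  have hDρ : (D : ℝ) = ρ * M := by rw [hρ]; field_simp
  have hyr : (6 : ℝ) * D ≤ 7 * (e * M) := by exact_mod_cast hy
  have heρ : 6 * ρ ≤ 7 * (e : ℝ) := by
    rw [hDρ] at hyr
    have : (6 * ρ) * M ≤ (7 * (e : ℝ)) * M := by nlinarith
    exact le_of_mul_le_mul_right this hMr
  have he0 : (0 : ℝ) < e := by nlinarith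
  have heN : 0 < e := by exact_mod_cast he0
  set y : ℝ := e / ρ with hyd
  have hyρ : (e : ℝ) = y * ρ := by rw [hyd]; field_simp
  have hy67 : (6 : ℝ) / 7 ≤ y := by
    rw [hyd, le_div_iff₀ hρpos]; linarith
  have hy0 : 0 < y := by linarith
  -- upper bound for e
  have heup : (6 : ℝ) * 10 ^ 23 * e ≤ 7 * ρ ^ 5 := by
    have h2 : (10 : ℝ) ^ 23 * M ^ 6 ≤ Δ * D ^ 4 := by exact_mod_cast hΔ
    have h3 : (6 : ℝ) * (e * Δ) ≤ 7 * (M * D) := by exact_mod_cast hv.le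
    have h4 : (6 : ℝ) * 10 ^ 23 * e * M ^ 6 ≤ 7 * ρ ^ 5 * M ^ 6 := by
      calc (6 : ℝ) * 10 ^ 23 * e * M ^ 6 = (6 * (e : ℝ)) * (10 ^ 23 * M ^ 6) := by ring
        _ ≤ (6 * (e : ℝ)) * (Δ * D ^ 4) := mul_le_mul_of_nonneg_left h2 (by positivity)
        _ = (6 * ((e : ℝ) * Δ)) * D ^ 4 := by ring
        _ ≤ (7 * ((M : ℝ) * D)) * D ^ 4 := mul_le_mul_of_nonneg_right h3 (by positivity)
        _ = 7 * ρ ^ 5 * M ^ 6 := by rw [hDρ]; ring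
    exact le_of_mul_le_mul_right h4 (by positivity)
  -- W
  set W : ℕ := ⌈900 * y⌉₊ with hW
  have hW1 : 900 * y ≤ (W : ℝ) := Nat.le_ceil _
  have hW2 : (W : ℝ) ≤ 902 * y := by
    have := Nat.ceil_lt_add_one (show (0 : ℝ) ≤ 900 * y by positivity)
    rw [← hW] at this
    linarith
  have hWpos : 0 < W := by
    have : (0 : ℝ) < W := lt_of_lt_of_le (by positivity) hW1
    exact_mod_cast this
  have hWr : (0 : ℝ) < W := by exact_mod_cast hWpos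
  have hW1r : (1 : ℝ) ≤ W := by exact_mod_cast hWpos
  -- the bound for the μ i
  have hμ : ∀ i, 6 * (μ i : ℝ) ≤ 13 * y := by
    intro i
    have h2 : (6 : ℝ) * (μ i * D) ≤ 13 * (e * M) := by exact_mod_cast hmax i
    rw [hDρ, hyρ] at h2
    have h3 : (6 * (μ i : ℝ)) * (ρ * M) ≤ (13 * y) * (ρ * M) := by nlinarith
    exact le_of_mul_le_mul_right h3 (by positivity)
  -- the sum of the μ i
  have hsum : 6 * ((e : ℝ) * ρ) ≤ 13 * ((∑ i, μ i : ℕ) : ℝ) := by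
    have h2 : (e : ℝ) ^ 2 ≤ ((∑ i, μ i ^ 2 : ℕ) : ℝ) := by exact_mod_cast hsq.le
    have h3 : 6 * ((∑ i, μ i ^ 2 : ℕ) : ℝ) ≤ 13 * y * ((∑ i, μ i : ℕ) : ℝ) := by
      push_cast
      rw [Finset.mul_sum, Finset.mul_sum]
      apply Finset.sum_le_sum
      intro i _
      have := hμ i
      have h0 : (0 : ℝ) ≤ μ i := Nat.cast_nonneg _
      nlinarith
    have h4 : y * (6 * ((e : ℝ) * ρ)) ≤ y * (13 * ((∑ i, μ i : ℕ) : ℝ)) := by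
      have : y * (6 * ((e : ℝ) * ρ)) = 6 * (e : ℝ) ^ 2 := by
        rw [pow_two]; nth_rewrite 3 [hyρ]; ring
      rw [this]
      nlinarith
    exact le_of_mul_le_mul_left h4 hy0
  -- the square root
  set s : ℕ := Nat.sqrt (9 * W) with hs
  have hs2 : s * s ≤ 9 * W := Nat.sqrt_le (9 * W)
  have hs1 : 1 ≤ s := by
    rw [hs, Nat.le_sqrt]
    omega
  have hs2r : (s : ℝ) * s ≤ 9 * W := by exact_mod_cast hs2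
  have hs1r : (1 : ℝ) ≤ s := by exact_mod_cast hs1
  -- (36 s W) ≤ e ρ / 100
  have hW3 : (W : ℝ) ^ 3 ≤ 902 ^ 3 * y ^ 3 := by
    have := pow_le_pow_left₀ hWr.le hW2 3
    rwa [mul_pow] at this
  have hW4 : (W : ℝ) ^ 4 ≤ 902 ^ 4 * y ^ 4 := by
    have := pow_le_pow_left₀ hWr.le hW2 4
    rwa [mul_pow] at this
  -- heup in terms of y : 6 * 10^23 * y ≤ 7 ρ^4
  have hyup : (6 : ℝ) * 10 ^ 23 * y ≤ 7 * ρ ^ 4 := by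
    rw [hyρ] at heup
    have : (6 * 10 ^ 23 * y) * ρ ≤ (7 * ρ ^ 4) * ρ := by nlinarith
    exact le_of_mul_le_mul_right this hρpos
  have hsW : 3600 * ((s : ℝ) * W) ≤ e * ρ := by
    have h2 : (3600 * ((s : ℝ) * W)) ^ 2 ≤ (e * ρ) ^ 2 := by
      calc (3600 * ((s : ℝ) * W)) ^ 2 = 3600 ^ 2 * ((s : ℝ) * s) * (W : ℝ) ^ 2 := by ring
        _ ≤ 3600 ^ 2 * (9 * (W : ℝ)) * (W : ℝ) ^ 2 := by
            apply mul_le_mul_of_nonneg_right _ (by positivity)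
            apply mul_le_mul_of_nonneg_left hs2r (by positivity)
        _ = (3600 ^ 2 * 9) * (W : ℝ) ^ 3 := by ring
        _ ≤ (3600 ^ 2 * 9) * (902 ^ 3 * y ^ 3) := mul_le_mul_of_nonneg_left hW3 (by positivity)
        _ = (3600 ^ 2 * 9 * 902 ^ 3) * y * y ^ 2 := by ring
        _ ≤ ρ ^ 4 * y ^ 2 := by
            apply mul_le_mul_of_nonneg_right _ (by positivity)
            nlinarith
        _ = (e * ρ) ^ 2 := by rw [hyρ]; ring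
    exact le_of_sq_le_sq h2 (by positivity)
  have hΔ4 : 6 * 10 ^ 9 * (W : ℝ) ^ 4 ≤ (e * ρ / 10) * e ^ 2 := by
    calc 6 * 10 ^ 9 * (W : ℝ) ^ 4 ≤ 6 * 10 ^ 9 * (902 ^ 4 * y ^ 4) :=
          mul_le_mul_of_nonneg_left hW4 (by positivity)
      _ = (6 * 10 ^ 9 * 902 ^ 4 * y) * y ^ 3 := by ring
      _ ≤ (ρ ^ 4 / 10) * y ^ 3 := by
          apply mul_le_mul_of_nonneg_right _ (by positivity)
          nlinarith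
      _ = (e * ρ / 10) * e ^ 2 := by rw [hyρ]; ring
  have he2 : 0 < e ^ 2 := by positivity
  -- A
  set Φ : ℕ := 5 * e ^ 2 with hΦ
  set A : ℕ := (3 * Φ + 3 * (s + 1) * W ^ 2) / W + 1 with hA
  set Δ' : ℕ := 10 ^ 9 * W ^ 4 / e ^ 2 + 1 with hΔ'
  have hA1 : 6 * (A : ℝ) ≤ e * ρ / 10 + e * ρ / 100 + 6 := by
    have h2 : (((3 * Φ + 3 * (s + 1) * W ^ 2) / W : ℕ) : ℝ) ≤
        ((3 * Φ + 3 * (s + 1) * W ^ 2 : ℕ) : ℝ) / (W : ℝ) := Nat.cast_div_le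
    have h3 : ((3 * Φ + 3 * (s + 1) * W ^ 2 : ℕ) : ℝ) / (W : ℝ) =
        15 * (e : ℝ) ^ 2 / W + 3 * ((s : ℝ) + 1) * W := by
      rw [hΦ]; push_cast; field_simp; ring
    have h4 : 90 * (e : ℝ) ^ 2 / W ≤ e * ρ / 10 := by
      rw [div_le_div_iff₀ hWr (by norm_num)]
      have h5 : (e : ℝ) * ρ * (900 * y) ≤ e * ρ * W :=
        mul_le_mul_of_nonneg_left hW1 (by positivity)
      have h6 : (e : ℝ) * ρ * (900 * y) = 90 * e ^ 2 * 10 := by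
        rw [pow_two]; nth_rewrite 3 [hyρ]; ring
      linarith
    have h5 : 6 * (3 * ((s : ℝ) + 1) * W) ≤ e * ρ / 100 := by
      have h6 : ((s : ℝ) + 1) * W ≤ 2 * (s * W) := by nlinarith
      linarith
    have h6 : 6 * (15 * (e : ℝ) ^ 2 / W) = 90 * (e : ℝ) ^ 2 / W := by ring
    rw [hA]; push_cast [Nat.cast_add]
    rw [h3] at h2
    linarith
  have hΔ1 : 6 * (Δ' : ℝ) ≤ e * ρ / 10 + 6 := by
    have h2 : ((10 ^ 9 * W ^ 4 / e ^ 2 : ℕ) : ℝ) ≤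
        ((10 ^ 9 * W ^ 4 : ℕ) : ℝ) / ((e ^ 2 : ℕ) : ℝ) := Nat.cast_div_le
    have h3 : 6 * (((10 ^ 9 * W ^ 4 : ℕ) : ℝ) / ((e ^ 2 : ℕ) : ℝ)) ≤ e * ρ / 10 := by
      rw [← mul_div_assoc, div_le_iff₀ (by positivity)]
      push_cast
      linarith
    rw [hΔ']; push_cast [Nat.cast_add]
    push_cast at h2 h3
    linarith
  have hρe : 10 ^ 7 * (e : ℝ) ≤ e * ρ := by nlinarith
  have hebig : (6 : ℝ) * 10 ^ 7 ≤ 7 * e := by linarith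
  refine ⟨W, Φ, A, 3 * A + 3 * Δ' + 2 * e + 1, Δ', hWpos, ?_, ?_, ?_, ?_, ?_, le_rfl, ?_⟩
  · have h2 : (10 : ℝ) ^ 4 * W ≤ e := by
      have h3 : (10 : ℝ) ^ 7 * y ≤ e := by rw [hyρ]; nlinarith
      linarith
    exact_mod_cast h2
  · have := Nat.lt_div_mul_add (a := 10 ^ 9 * W ^ 4) he2
    rw [hΔ', Nat.add_mul, one_mul]
    omega
  · intro i
    have h2 := hμ i
    have h3 : (μ i : ℝ) + 1 ≤ W := by linarith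
    exact_mod_cast h3
  · rw [hΦ]; omega
  · have := Nat.lt_div_mul_add (a := 3 * Φ + 3 * (s + 1) * W ^ 2) hWpos
    have h5 : W * A = (3 * Φ + 3 * (s + 1) * W ^ 2) / W * W + W := by rw [hA]; ring
    rw [h5]
    exact this.le
  · have h2 : 3 * (e : ℝ) + 1 + 2 * ((3 * A + 3 * Δ' + 2 * e + 1 : ℕ) : ℝ) ≤
        ((∑ i, μ i : ℕ) : ℝ) := by
      push_cast at hsum ⊢
      linarith
    have h3 : 3 * e + 1 + 2 * (3 * A + 3 * Δ' + 2 * e + 1) ≤ ∑ i, μ i := by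
      have h4 : ((3 * e + 1 + 2 * (3 * A + 3 * Δ' + 2 * e + 1) : ℕ) : ℝ) ≤
        ((∑ i, μ i : ℕ) : ℝ) := by
        push_cast at h2 ⊢
        exact h2
      exact_mod_cast h4
    nlinarith

end Pool.Agent.helper25.ST
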