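import Pool.Agent.helper25.ST.ProcE
import Pool.Agent.helper25.ST.NumUp1
import Pool.Agent.helper25.ST.NumUp2
import Pool.Agent.helper25.ST.Nef0

set_option autoImplicit false

/-!
# Module Nef12: nefness of level 1 and 2

`nef1`: `nefP_of`; a violating `(e; μ)` satisfies the conclusions of `numV` (with `Δ`, `D' ≥ D`:
`Δ D' ^ 2 ≥ Δ D ^ 2`), `numUp1` gives the numbers, `procE` with `nef0` (level 0 for degree `e`,
weights `≤ W`) gives `E e μ`. `nef2`: the same with `numUp2` and `nef1`.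
-/

namespace Pool.Agent.helper25.ST

open MvPolynomial Pool.Agent.helper5.NBS Pool.Agent.helper89.Segre Pool.Agent.SH9

theorem nef1 {d W Δ : ℕ} (hW : 1 ≤ W) (hd : 10 ^ 4 * W ≤ d) (hΔ : 10 ^ 9 * W ^ 4 ≤ Δ * d ^ 2) :
    NefT d W Δ := by
  intro n ws hws D hD hsq
  refine nefP_of ws ?_
  intro e μ he xu hme viol
  obtain ⟨c1, c2, c3, c4, c5⟩ := numV ws μ W D Δ e hws hW
    (le_trans (le_trans (Nat.mul_le_mul_right W (by norm_num)) hd) hD) hsq xu hme viol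
  obtain ⟨W', Φ, A, w', hW', hWe, hμ, hΦ, hA, hw, hfin⟩ := numUp1 μ W D Δ e hW (hd.trans hD)
    (hΔ.trans (Nat.mul_le_mul_left Δ (Nat.pow_le_pow_left hD 2))) c1 c2 c3 c4 c5
  exact procE hW' (nef0 hW' hWe) hA hw μ hμ hΦ hfin

theorem nef2 {d W Δ : ℕ} (hW : 1 ≤ W) (hd : 10 ^ 7 * W ≤ d) (hΔ : 10 ^ 23 * W ^ 6 ≤ Δ * d ^ 4) :
    NefT d W Δ := by
  intro n ws hws D hD hsq
  refine nefP_of ws ?_
  intro e μ he xu hme viol
  obtain ⟨c1, c2, c3, c4, c5⟩ := numV ws μ W D Δ e hws hW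
    (le_trans (le_trans (Nat.mul_le_mul_right W (by norm_num)) hd) hD) hsq xu hme viol
  obtain ⟨W', Φ, A, w', Δ', hW', hWe, hΔ', hμ, hΦ, hA, hw, hfin⟩ := numUp2 μ W D Δ e hW
    (hd.trans hD) (hΔ.trans (Nat.mul_le_mul_left Δ (Nat.pow_le_pow_left hD 4))) c1 c2 c3 c4 c5
  exact procE hW' (nef1 hW' hWe hΔ') hA hw μ hμ hΦ hfin

end Pool.Agent.helper25.ST
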