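import Pool.Agent.helper25.ST.NineReg

set_option autoImplicit false

/-!
# Module NineT: the collision of nine nearly equal points (data)

If `gs` is constant, `gs = replicate 9 m`: `t = 3 m - 1`, `ρ = 1` (`nineE` strict, `nineC`).
Otherwise `t = gs.sum / 3`: `E t gs` by `nineE` (strict or equality, not constant), `nineReg` with
`d = t + 1`; `ρ ≤ t + 2` because `C(t+2,2) ≤ cd gs` (`card_le`) and `C(t+3,2) = C(t+2,2) + (t+2)`.
`3 (t + 3) ≤ gs.sum + 9 = S1 gs`.
-/

namespace Pool.Agent.helper25.ST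

open MvPolynomial Pool.Agent.helper5.NBS Pool.Agent.helper89.Segre Pool.Agent.SH9

private lemma nineT_S1 (gs : Multiset ℕ) : S1 gs = gs.sum + Multiset.card gs := by
  induction gs using Multiset.induction_on with
  | empty => simp [S1]
  | cons m ms ih =>
    rw [S1_cons, ih, Multiset.sum_cons, Multiset.card_cons]
    ring

private lemma nineT_sum (gs : Multiset ℕ) (h2 : ∀ μ ∈ gs, 2 ≤ μ) :
    2 * Multiset.card gs ≤ gs.sum := by
  have h := Multiset.card_nsmul_le_sum (s := gs) (a := 2) h2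
  rw [smul_eq_mul] at h
  omega

theorem nineT {gs : Multiset ℕ} (hc : Multiset.card gs = 9) (h2 : ∀ μ ∈ gs, 2 ≤ μ)
    (hV : 45 * S2 gs ≤ 5 * S1 gs ^ 2 + 4 * S1 gs) :
    ∃ t ρ : ℕ, 1 ≤ t ∧ E t gs ∧ E (t + 1) (gs + Multiset.replicate ρ 1) ∧
      cd gs + ρ = (t + 3).choose 2 ∧ ρ ≤ t + 2 ∧ 3 * (t + 3) ≤ S1 gs := by
  have hS := nineT_S1 gs
  rw [hc] at hS
  have hs := nineT_sum gs h2
  rw [hc] at hs
  by_cases hcon : ∃ a ∈ gs, ∃ b ∈ gs, a ≠ b
  · have hE : E (gs.sum / 3) gs := by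
      apply nineE hc
      by_cases h : 3 * (gs.sum / 3) < gs.sum
      · exact Or.inl h
      · exact Or.inr ⟨by omega, hcon⟩
    obtain ⟨ρ, h1, h3⟩ := nineReg (d := gs.sum / 3 + 1) hc (by omega) hV
    have h4 := card_le hE
    have h5 := two_choose (gs.sum / 3)
    have h6 := two_choose (gs.sum / 3 + 1)
    refine ⟨gs.sum / 3, ρ, by omega, hE, h1, h3, ?_, by omega⟩
    generalize gs.sum / 3 = t at *
    rw [show t + 1 + 2 = t + 3 by ring] at h3 h6
    nlinarith
  · push Not at hcon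
    obtain ⟨m, hm⟩ : ∃ m, m ∈ gs := by
      apply Multiset.exists_mem_of_ne_zero
      rintro rfl
      simp at hc
    have hgs : gs = Multiset.replicate 9 m := by
      rw [Multiset.eq_replicate]
      exact ⟨hc, fun b hb => hcon b hb m hm⟩
    have hm2 := h2 m hm
    obtain ⟨k, rfl⟩ : ∃ k, m = k + 1 := ⟨m - 1, by omega⟩
    have hsum : gs.sum = 9 * (k + 1) := by
      rw [hgs, Multiset.sum_replicate, smul_eq_mul]
    have h1 := nineC (k + 1)
    rw [← hgs] at h1
    have hcd : cd gs = 9 * kk (k + 1) := by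
      rw [hgs, cd, Multiset.map_replicate, Multiset.sum_replicate, smul_eq_mul]
    have h3 := two_choose (3 * k + 3)
    have h4 := two_mul_kk (k + 1)
    refine ⟨3 * k + 2, 1, by omega, nineE hc (Or.inl (by omega)), h1, ?_, by omega, by omega⟩
    show cd gs + 1 = (3 * k + 3 + 2).choose 2
    rw [hcd]
    nlinarith

end Pool.Agent.helper25.ST
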