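import Pool.Agent.helper25.ST.Fin
import Pool.Agent.helper25.ST.Bucket
import Pool.Agent.helper25.ST.NineT
import Pool.Agent.SH9.CW

set_option autoImplicit false

/-!
# Module Proc: the collision process

Strong induction on `card ms` (all `ms`, `s`). If there is `gs ≤ ms`, `card gs = 9`,
`3 (μ + 1) ≤ U` on `gs`, `45 S2 gs ≤ 5 S1 gs ^ 2 + 4 S1 gs`: `nineT` gives `t, ρ`; `σ = t + 2 - ρ`,
`ms = gs + rest`. Apply `cw_gen` (SH9.CW, arbitrary group `gs`) to `rest + replicate s 1`: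
first hypothesis: induction for `(t + 2) ::ₘ rest`, `s`; second: induction for `(t + 1) ::ₘ rest`,
`s + σ`. Check: cardinality smaller; `2 ≤ t + 1`; `t + 3 ≤ U ≤ W` from `3 (t + 3) ≤ S1 gs ≤ 9 U / 3`;
`(t + 3) ^ 2 ≤ S2 gs` from `9 (t + 3) ^ 2 ≤ S1 gs ^ 2 ≤ 9 S2 gs` (Cauchy-Schwarz); number of conditions:
`cd gs + ρ = C(t+3,2) = kk (t+2)`, `kk (t + 1) + σ = cd gs` since `kk (t+2) = kk (t+1) + (t+2)`; so the
total `cd + s` does not decrease, and `s` does not decrease.
Otherwise `bucket` gives `U * S1 ms ≤ 3 Φ + 3 (Nat.sqrt (9 U) + 1) U ^ 2`, so `S1 ms ≤ A`, and `fin`.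
-/

namespace Pool.Agent.helper25.ST

open MvPolynomial Pool.Agent.helper5.NBS Pool.Agent.helper89.Segre Pool.Agent.SH9

/-- Cauchy-Schwarz -/
lemma cs_card (gs : Multiset ℕ) : S1 gs ^ 2 ≤ Multiset.card gs * S2 gs := by
  obtain ⟨m, hm⟩ := exists_fin gs
  have h1 : S1 gs = ∑ i, (m i + 1) := by
    conv_lhs => rw [← hm]
    rw [S1, Multiset.map_map]; rfl
  have h2 : S2 gs = ∑ i, (m i + 1) ^ 2 := by
    conv_lhs => rw [← hm]
    rw [S2, Multiset.map_map]; rfl
  have h3 := sq_sum_le_card_mul_sum_sq (s := (Finset.univ : Finset (Fin (Multiset.card gs))))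
    (f := fun i => m i + 1)
  rw [Finset.card_univ, Fintype.card_fin] at h3
  rw [h1, h2]
  exact_mod_cast h3

lemma S1_le_card {W : ℕ} (gs : Multiset ℕ) (h : ∀ μ ∈ gs, 3 * (μ + 1) ≤ W) :
    3 * S1 gs ≤ Multiset.card gs * W := by
  induction gs using Multiset.induction_on with
  | empty => simp [S1]
  | cons m ms ih =>
    have h1 := ih (fun μ hμ => h μ (Multiset.mem_cons_of_mem hμ))
    have h2 := h m (Multiset.mem_cons_self _ _)
    rw [S1_cons, Multiset.card_cons]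
    nlinarith

lemma kk_succ (t : ℕ) : kk (t + 2) = kk (t + 1) + (t + 2) := by
  have h1 := two_mul_kk (t + 2)
  have h2 := two_mul_kk (t + 1)
  nlinarith

theorem proc {d U W Δ Φ A w : ℕ} (hU : 1 ≤ U) (hUW : U ≤ W) (hNef : NefT d W Δ)
    (hA : 3 * Φ + 3 * (Nat.sqrt (9 * U) + 1) * U ^ 2 ≤ U * A)
    (hw : 3 * A + 3 * Δ + 2 * d + 1 ≤ w) (ms : Multiset ℕ) (s : ℕ)
    (hms : ∀ μ ∈ ms, 2 ≤ μ ∧ μ + 1 ≤ W) (hΦ : S2 ms ≤ Φ)
    (ht : (d + 2).choose 2 ≤ cd ms + s)
    (h : w ≤ s ∨ (d + 2).choose 2 + w ≤ cd ms + s) :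
    E d (ms + Multiset.replicate s 1) := by
  induction hn : Multiset.card ms using Nat.strong_induction_on generalizing ms s with
  | _ n ih =>
  by_cases hex : ∃ gs ≤ ms, Multiset.card gs = 9 ∧ (∀ μ ∈ gs, 3 * (μ + 1) ≤ U) ∧
      45 * S2 gs ≤ 5 * S1 gs ^ 2 + 4 * S1 gs
  · obtain ⟨gs, hle, hc, h3, hV⟩ := hex
    obtain ⟨rest, rfl⟩ := Multiset.le_iff_exists_add.mp hle
    obtain ⟨t, ρ, ht1, hE0, hE1, hcount, hρ, hS⟩ :=
      nineT hc (fun μ hμ => (hms μ (Multiset.mem_add.mpr (Or.inl hμ))).1) hV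
    have hk2 : kk (t + 2) = cd gs + ρ := by rw [hcount]; rfl
    have hk1 := kk_succ t
    have hb := S1_le_card gs h3
    rw [hc] at hb
    have htW : t + 3 ≤ W := by omega
    have hcs := cs_card gs
    rw [hc] at hcs
    have hsq : (t + 3) ^ 2 ≤ S2 gs := by
      have h5 : (3 * (t + 3)) ^ 2 ≤ S1 gs ^ 2 := Nat.pow_le_pow_left hS 2
      nlinarith
    have hsq' : (t + 2) ^ 2 ≤ S2 gs := le_trans (Nat.pow_le_pow_left (by omega) 2) hsq
    rw [Multiset.card_add, hc] at hn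
    rw [S2_add] at hΦ
    rw [cd_add] at ht h
    rw [add_assoc]
    refine cw_gen (t := t) (ρ := ρ) (σ := t + 2 - ρ) (by omega) hE0 hE1 ?_ ?_
    · rw [← Multiset.cons_add]
      refine ih (Multiset.card rest + 1) (by omega) ((t + 2) ::ₘ rest) s ?_ ?_ ?_ ?_
        (Multiset.card_cons _ _)
      · intro μ hμ
        rcases Multiset.mem_cons.mp hμ with rfl | hμ
        · omega
        · exact hms μ (Multiset.mem_add.mpr (Or.inr hμ))
      · rw [S2_cons]
        have : t + 2 + 1 = t + 3 := rfl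
        rw [this]
        omega
      · rw [cd_cons]
        omega
      · rw [cd_cons]
        omega
    · have he : (t + 1) ::ₘ (rest + Multiset.replicate s 1 + Multiset.replicate (t + 2 - ρ) 1) =
          (t + 1) ::ₘ rest + Multiset.replicate (s + (t + 2 - ρ)) 1 := by
        rw [Multiset.replicate_add, Multiset.cons_add, add_assoc]
      rw [he]
      refine ih (Multiset.card rest + 1) (by omega) ((t + 1) ::ₘ rest) (s + (t + 2 - ρ))
        ?_ ?_ ?_ ?_ (Multiset.card_cons _ _)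
      · intro μ hμ
        rcases Multiset.mem_cons.mp hμ with rfl | hμ
        · omega
        · exact hms μ (Multiset.mem_add.mpr (Or.inr hμ))
      · rw [S2_cons]
        have : t + 1 + 1 = t + 2 := rfl
        rw [this]
        omega
      · rw [cd_cons]
        omega
      · rw [cd_cons]
        omega
  · have hbk := bucket (ms := ms) (W := U) (fun gs hle hc h3 hV => hex ⟨gs, hle, hc, h3, hV⟩)
    have hS1 : S1 ms ≤ A := by
      have h5 : U * S1 ms ≤ U * A := by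
        refine hbk.trans (le_trans ?_ hA)
        exact Nat.add_le_add_right (Nat.mul_le_mul_left 3 hΦ) _
      exact Nat.le_of_mul_le_mul_left h5 (by omega)
    exact fin (hU.trans hUW) hNef (fun μ hμ => (hms μ hμ).2) hS1 hw ht h

end Pool.Agent.helper25.ST
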