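import Pool.Agent.helper25.ST.Proc
import Pool.Agent.helper25.ST.Split

set_option autoImplicit false

/-!
# Module ProcE: the empty half, for a family of multiplicities with zeros and ones

`split` (module Split, proved) for `univ.val.map μ = a + replicate s 1 + replicate z 0`; `Q2_map`,
`sum_map`. `proc` for `a`, `s` (second alternative of `h`), then `E.add`.
-/

namespace Pool.Agent.helper25.ST

open MvPolynomial Pool.Agent.helper5.NBS Pool.Agent.helper89.Segre Pool.Agent.SH9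

/-- empty half, for a family of multiplicities with zeros and ones -/
theorem procE {d W Δ Φ A w n : ℕ} (hW : 1 ≤ W) (hNef : NefT d W Δ)
    (hA : 3 * Φ + 3 * (Nat.sqrt (9 * W) + 1) * W ^ 2 ≤ W * A)
    (hw : 3 * A + 3 * Δ + 2 * d + 1 ≤ w) (μ : Fin n → ℕ) (hμ : ∀ i, μ i + 1 ≤ W)
    (hΦ : 9 * ∑ i, μ i ^ 2 ≤ 4 * Φ)
    (h : (d + 1) * (d + 2) + 2 * w ≤ ∑ i, μ i ^ 2 + ∑ i, μ i) :
    E d (Finset.univ.val.map μ) := by
  obtain ⟨a, s, z, h1, h2, h3, h4, h5, h6, h7⟩ := split (Finset.univ.val.map μ)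
  rw [Q2_map] at h5 h7
  rw [sum_map] at h7
  have hc := two_choose d
  have hmem : ∀ x ∈ a, x + 1 ≤ W := by
    intro x hx
    obtain ⟨i, _, rfl⟩ := Multiset.mem_map.mp (Multiset.mem_of_le h3 hx)
    exact hμ i
  rw [h1]
  refine E.add (proc hW le_rfl hNef hA hw a s (fun x hx => ⟨h2 x hx, hmem x hx⟩) ?_ ?_ (Or.inr ?_)) _
  · omega
  · omega
  · omega

end Pool.Agent.helper25.ST
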